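import Pool.Agent.Lib.MP_5de024_nt.S.FinX.Supp
import Pool.Agent.Lib.MP_5de024_nt.S.E.CenI

/-!
# The class of groups
-/

set_option autoImplicit false
set_option linter.unusedSectionVars false

namespace Pool.Agent.AB3

open Pool.Agent.AB

/-- the class of finite groups generated by the cyclic groups of order prime to `p` -/
inductive Tm (p : ℕ) : ∀ (E : Type) [Group E], Prop
  | cyc (E : Type) [Group E] [Finite E] [IsCyclic E] (h : (Nat.card E).Coprime p) : Tm p E
  | quo (E E' : Type) [Group E] [Group E'] (f : E →* E') (hf : Function.Surjective f)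
      (h : Tm p E) : Tm p E'
  | pker (E : Type) [Group E] [Finite E] (U : Subgroup E) [U.Normal] (hU : IsPGroup p U)
      (h : Tm p (E ⧸ U)) : Tm p E
  | supp (E : Type) [Group E] [Finite E] (A C : Subgroup E) [A.Normal]
      (hAc : ∀ a ∈ A, ∀ b ∈ A, a * b = b * a) (hcop : (Nat.card A).Coprime p)
      (hle : A ≤ pg p E) (hsup : A ⊔ C = ⊤) (h : Tm p C) : Tm p E
  | cent (E : Type) [Group E] [Finite E] (V : Subgroup E) [V.Normal]
      (hcop : (Nat.card V).Coprime p) (hle : V ≤ pg p E)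
      (hc : ∀ v ∈ V, ∀ h ∈ pg p E, v * h = h * v) (h : Tm p (E ⧸ V)) : Tm p E
  | lay (E : Type) [Group E] [Finite E] (K : Subgroup E) [K.Normal]
      (hsol : Group.IsSolvable K)
      (hgen : Subgroup.closure {g : E | g ∈ K ∧ ∃ n : ℕ, g ^ (p ^ n) = 1} = K)
      (hab : ∀ l : ℕ, l.Prime → l ≠ p → ∀ S : Subgroup E, S ≤ K → IsPGroup l S →
        ∀ a ∈ S, ∀ b ∈ S, a * b = b * a)
      (h : Tm p (E ⧸ K)) : Tm p E

theorem pg_eq_bot (p : ℕ) (E : Type) [Group E] [Finite E] (h : (Nat.card E).Coprime p) :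
    pg p E = ⊥ := by
  rw [eq_bot_iff]
  conv_lhs => unfold pg
  rw [Subgroup.closure_le]
  rintro g ⟨n, hn⟩
  exact mem_of_coprime (F := ⊥) (Nat.Coprime.pow_right n h)
    (Subgroup.mem_bot.2 pow_card_eq_one') (Subgroup.mem_bot.2 hn)

theorem rf_tm (p : ℕ) [Fact p.Prime] (E : Type) [i : Group E] (h : Tm p E) :
    Finite E ∧ RF p E (pg p E) := by
  have hp : p.Prime := Fact.out
  induction h with
  | @cyc E _ _ _ h =>
    refine ⟨inferInstance, ?_⟩
    rw [pg_eq_bot p E h]
    exact rf_base p E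
  | @quo E E' _ _ f hf _ ih =>
    obtain ⟨h1, h2⟩ := ih
    refine ⟨Finite.of_surjective f hf, ?_⟩
    have h3 := rf_map p f hf h2
    rwa [pg_map p hp f hf] at h3
  | @pker E _ _ U _ hU _ ih => exact ⟨inferInstance, rf_stepA p E U hU ih.2⟩
  | @supp E _ _ A C _ hAc hcop hle hsup _ ih =>
    exact ⟨inferInstance, rf_supp p E A C hAc hcop hle hsup ih.2⟩
  | @cent E _ _ V _ hcop hle hc _ ih => exact ⟨inferInstance, rf_central p E V hcop hle hc ih.2⟩
  | @lay E _ _ K _ hsol hgen hab _ ih =>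
    refine ⟨inferInstance, ?_⟩
    have hk : (QuotientGroup.mk' K).ker = K := QuotientGroup.ker_mk' K
    refine rf_refine p _ E (E ⧸ K) (QuotientGroup.mk' K) (QuotientGroup.mk'_surjective K) rfl
      ?_ ?_ ?_ ih.2
    · rw [hk]
      exact hsol
    · rw [hk]
      exact hgen.ge
    · rw [hk]
      exact hab

end Pool.Agent.AB3
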