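import Pool.Agent.Lib.MP_5de024_nt.Et
import Pool.Agent.Lib.MP_5de024_nt.S.Defs

/-!
# Etale extensions have no inertia
-/

set_option autoImplicit false
set_option linter.unusedSectionVars false

namespace Pool.Agent.AB3

open Pool.Agent.AB TensorProduct

variable (p : ℕ) [Fact p.Prime] (K : Type) [Field K] [Algebra (Fx p) K] [Algebra (Rx p) K]
  [IsScalarTower (Rx p) (Fx p) K]

theorem act_ext [FiniteDimensional (Fx p) K] (σ : Gl p K) (h : ∀ s : Oc p K, act p K σ s = s) :
    σ = 1 := by
  have hfr : IsFractionRing (Oc p K) K :=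
    IsIntegralClosure.isFractionRing_of_finite_extension (Rx p) (Fx p) K (Oc p K)
  apply AlgEquiv.ext
  intro z
  obtain ⟨a, b, -, rfl⟩ := IsFractionRing.div_surjective (A := Oc p K) z
  have h1 : ∀ s : Oc p K, σ (algebraMap (Oc p K) K s) = algebraMap (Oc p K) K s := fun s =>
    congrArg (fun t : Oc p K => (t : K)) (h s)
  rw [map_div₀, h1, h1]
  rfl

theorem ni_of_et [FiniteDimensional (Fx p) K] (h : Algebra.Etale (Rx p) (Oc p K)) : NI p K := by
  intro σ hσ P hP
  by_contra hcon
  push Not at hcon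
  obtain ⟨t, ht, ht1⟩ := (Algebra.FormallyUnramified.iff_exists_tensorProduct
    (R := Rx p) (S := Oc p K)).1 inferInstance
  let f : Oc p K ⊗[Rx p] Oc p K →ₐ[Rx p] Oc p K :=
    Algebra.TensorProduct.lift (AlgHom.id _ _) (act p K σ : Oc p K →ₐ[Rx p] Oc p K)
      (fun _ _ => mul_comm _ _)
  have hf : ∀ a b, f (a ⊗ₜ b) = a * act p K σ b := fun a b =>
    Algebra.TensorProduct.lift_tmul _ _ _ _ _
  have h1 : ∀ s, (act p K σ s - s) * f t = 0 := by
    intro s
    have h2 := congrArg f (ht s)
    rw [map_mul, map_sub, hf, hf, map_zero, one_mul, map_one, mul_one] at h2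
    exact h2
  have h2 : ∀ z : Oc p K ⊗[Rx p] Oc p K,
      f z - Algebra.TensorProduct.lmul' (Rx p) z ∈ P := by
    intro z
    induction z using TensorProduct.induction_on with
    | zero => rw [map_zero, map_zero, sub_zero]; exact P.zero_mem
    | tmul a b =>
      rw [hf, Algebra.TensorProduct.lmul'_apply_tmul, ← mul_sub]
      exact P.mul_mem_left _ (hcon b)
    | add a b ha hb =>
      rw [map_add, map_add, add_sub_add_comm]
      exact P.add_mem ha hb
  have h3 : f t ≠ 0 := by
    intro h4
    have h5 := h2 t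
    rw [h4, ht1, zero_sub, neg_mem_iff] at h5
    exact hP.ne_top ((Ideal.eq_top_iff_one P).2 h5)
  apply hσ
  apply act_ext
  intro s
  rcases mul_eq_zero.1 (h1 s) with h4 | h4
  · exact sub_eq_zero.1 h4
  · exact absurd h4 h3

end Pool.Agent.AB3
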