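import Pool.Agent.Lib.MP_5de024_nt.S.Defs
import Pool.Agent.Lib.MP_5de024_nt.Cyc
import Pool.Agent.Lib.MP_5de024_nt.KdOf
import Pool.Agent.Lib.MP_5de024_nt.Quo

/-!
# `RF`: surjections and constant extensions
-/

set_option autoImplicit false
set_option linter.unusedSectionVars false

namespace Pool.Agent.AB3

open Pool.Agent.AB Polynomial

theorem rf_map (p : ℕ) [Fact p.Prime] {G G' : Type} [Group G] [Group G'] {H : Subgroup G}
    (f : G →* G') (hf : Function.Surjective f) (h : RF p G H) : RF p G' (H.map f) := by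
  obtain ⟨K, _, _, _, _, Φ, hK, hΦ, hG⟩ := h
  refine ⟨K, inferInstance, inferInstance, inferInstance, inferInstance, f.comp Φ, hK,
    hf.comp hΦ, ?_⟩
  rw [← Subgroup.map_map, hG]

theorem rf_congr (p : ℕ) [Fact p.Prime] {G G' : Type} [Group G] [Group G'] {H : Subgroup G}
    {H' : Subgroup G'} (e : G ≃* G') (h : RF p G H) (hH : H.map e.toMonoidHom = H') :
    RF p G' H' := by
  rw [← hH]
  exact rf_map p e.toMonoidHom e.surjective h

theorem realG_of_rf (p : ℕ) [Fact p.Prime] {G : Type} [Group G] {H : Subgroup G}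
    (h : RF p G H) : RealG p G := by
  obtain ⟨K, _, _, _, _, Φ, hK, hΦ, -⟩ := h
  have := hK.1
  have := hK.2.1
  exact realG_of_surj p K hK.2.2 G Φ hΦ

/-- cyclic groups over the constants -/
theorem rf_base (p : ℕ) [Fact p.Prime] (G : Type) [Group G] [Finite G] [IsCyclic G] :
    RF p G ⊥ := by
  have hp : 1 < p := (Fact.out : p.Prime).one_lt
  obtain ⟨m, hm⟩ : ∃ m : ℕ, m = Nat.card G := ⟨_, rfl⟩
  have hm0 : 0 < m := hm ▸ Nat.card_pos
  have hpm : 1 < p ^ m := Nat.one_lt_pow hm0.ne' hp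
  have hcop : (p ^ m - 1).Coprime p := by
    have h1 : Nat.Coprime (p ^ m - 1) (p ^ m) := by
      rw [Nat.coprime_self_sub_left hpm.le]
      exact Nat.coprime_one_left _
    exact Nat.Coprime.coprime_dvd_right (dvd_pow_self p hm0.ne') h1
  obtain ⟨K, _, _, _, _, ζ, π, q, γ, hfd, hgal, hNI, hζ, hq, -, hinj, -, hall⟩ :=
    pc_base p (p ^ m - 1) hcop Unit ()
  have hinj' : ∀ σ : Gl p K, σ ζ = ζ → σ = 1 := fun σ => hinj σ (Subsingleton.elim _ _)
  have hγ : γ ζ = ζ ^ p := frob_rou p K (p ^ m - 1) hcop ζ hζ q γ hq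
  have hζ0 : ζ ≠ 0 := hζ.ne_zero (by omega)
  have hpow : ∀ i : ℕ, (γ ^ i) ζ = ζ ^ p ^ i := by
    intro i
    induction i with
    | zero => rw [pow_zero, pow_zero, pow_one]; rfl
    | succ i ih =>
      rw [pow_succ', AlgEquiv.mul_apply, ih, map_pow, hγ, ← pow_mul, ← pow_succ']
  have hgen : ∀ σ : Gl p K, σ ∈ Subgroup.zpowers γ := by
    intro σ
    obtain ⟨i, hi⟩ := hall σ
    refine ⟨i, ?_⟩
    have h1 : (γ ^ i)⁻¹ * σ = 1 := by
      apply hinj'
      rw [AlgEquiv.mul_apply, hi, ← hpow, AlgEquiv.aut_inv, AlgEquiv.symm_apply_apply]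
    have h2 := inv_mul_eq_one.1 h1
    simpa using h2
  have hord : orderOf γ = m := by
    apply Nat.dvd_antisymm
    · rw [orderOf_dvd_iff_pow_eq_one]
      apply hinj'
      rw [hpow]
      have h1 : ζ ^ (p ^ m - 1) = 1 := hζ.pow_eq_one
      calc ζ ^ p ^ m = ζ ^ (p ^ m - 1 + 1) := by rw [Nat.sub_add_cancel hpm.le]
        _ = ζ := by rw [pow_succ, h1, one_mul]
    · have h1 : ζ ^ p ^ orderOf γ = ζ := by
        rw [← hpow, pow_orderOf_eq_one]; rfl
      have h2 : ζ ^ (p ^ orderOf γ - 1) = 1 := by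
        have h3 : 0 < p ^ orderOf γ := pow_pos (by omega) _
        have h4 : ζ ^ (p ^ orderOf γ - 1) * ζ = ζ := by
          rw [← pow_succ, Nat.sub_add_cancel h3, h1]
        exact mul_eq_right₀ hζ0 |>.1 h4
      have h3 := hζ.dvd_of_pow_eq_one _ h2
      have h4 := Nat.pow_sub_one_gcd_pow_sub_one p m (orderOf γ)
      rw [Nat.gcd_eq_left h3] at h4
      have h5 : 0 < p ^ Nat.gcd m (orderOf γ) := pow_pos (by omega) _
      have h6 : p ^ m = p ^ Nat.gcd m (orderOf γ) := by omega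
      have h7 := Nat.pow_right_injective hp h6
      rw [h7]
      exact Nat.gcd_dvd_right _ _
  have hcyc : IsCyclic (Gl p K) := ⟨γ, hgen⟩
  have hcard : Nat.card (Gl p K) = Nat.card G := by
    rw [← hm, ← hord]
    exact (orderOf_eq_card_of_forall_mem_zpowers hgen).symm
  let e : Gl p K ≃* G := mulEquivOfCyclicCardEq hcard
  refine ⟨K, inferInstance, inferInstance, inferInstance, inferInstance, e.toMonoidHom,
    ⟨hfd, hgal, hNI⟩, e.surjective, ?_⟩
  have hbot : Gc p K = ⊥ := by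
    rw [eq_bot_iff]
    intro σ hσ
    rw [Subgroup.mem_bot]
    apply hinj'
    apply hσ
    refine ⟨m, hm0, ?_⟩
    have h1 : ζ ^ (p ^ m - 1) = 1 := hζ.pow_eq_one
    calc ζ ^ p ^ m = ζ ^ (p ^ m - 1 + 1) := by rw [Nat.sub_add_cancel hpm.le]
      _ = ζ := by rw [pow_succ, h1, one_mul]
  rw [hbot, Subgroup.map_bot]

end Pool.Agent.AB3
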