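import Mathlib

/-!
# The subgroup generated by the elements of `p`-power order
-/

set_option autoImplicit false
set_option linter.unusedSectionVars false

namespace Pool.Agent.AB3

/-- the subgroup generated by the elements of `p`-power order -/
def pg (p : ℕ) (E : Type) [Group E] : Subgroup E :=
  Subgroup.closure {g : E | ∃ n : ℕ, g ^ (p ^ n) = 1}

section basic

variable (p : ℕ) (E : Type) [Group E]

theorem mem_pg {g : E} {n : ℕ} (h : g ^ (p ^ n) = 1) : g ∈ pg p E :=
  Subgroup.subset_closure ⟨n, h⟩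

instance pg_normal : (pg p E).Normal := by
  constructor
  intro g hg x
  unfold pg at hg ⊢
  induction hg using Subgroup.closure_induction with
  | mem y hy =>
    obtain ⟨n, hn⟩ := hy
    exact Subgroup.subset_closure ⟨n, by rw [conj_pow, hn, mul_one, mul_inv_cancel]⟩
  | one => rw [mul_one, mul_inv_cancel]; exact Subgroup.one_mem _
  | mul a b _ _ iha ihb =>
    have h1 : x * (a * b) * x⁻¹ = (x * a * x⁻¹) * (x * b * x⁻¹) := by group
    rw [h1]
    exact Subgroup.mul_mem _ iha ihb
  | inv a _ iha =>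
    have h1 : x * a⁻¹ * x⁻¹ = (x * a * x⁻¹)⁻¹ := by group
    rw [h1]
    exact Subgroup.inv_mem _ iha

variable {E}

/-- elements of `p`-power order can be lifted -/
theorem pel_lift (hp : p.Prime) {E' : Type} [Group E'] [Finite E] (f : E →* E')
    (g : E) {n : ℕ} (h : f g ^ (p ^ n) = 1) : ∃ (a : E) (k : ℕ), a ^ (p ^ k) = 1 ∧ f a = f g := by
  obtain ⟨k, m, hm, hk⟩ := Nat.exists_eq_pow_mul_and_not_dvd (orderOf_pos g).ne' p hp.ne_one
  have hcop : Nat.Coprime m (orderOf (f g)) :=
    Nat.Coprime.coprime_dvd_right (orderOf_dvd_of_pow_eq_one h)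
      (Nat.Coprime.pow_right n ((Nat.Prime.coprime_iff_not_dvd hp).2 hm).symm)
  obtain ⟨c, hc⟩ := exists_pow_eq_self_of_coprime hcop
  refine ⟨g ^ (m * c), k, ?_, ?_⟩
  · rw [← pow_mul]
    have : m * c * p ^ k = orderOf g * c := by rw [hk]; ring
    rw [this, pow_mul, pow_orderOf_eq_one, one_pow]
  · rw [map_pow, pow_mul, hc]

theorem pg_map_le {E' : Type} [Group E'] (f : E →* E') : (pg p E).map f ≤ pg p E' := by
  unfold pg
  rw [MonoidHom.map_closure, Subgroup.closure_le]
  rintro _ ⟨a, ⟨n, hn⟩, rfl⟩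
  exact Subgroup.subset_closure ⟨n, by rw [← map_pow, hn, map_one]⟩

theorem pg_map (hp : p.Prime) {E' : Type} [Group E'] [Finite E] (f : E →* E')
    (hf : Function.Surjective f) : (pg p E).map f = pg p E' := by
  refine le_antisymm (pg_map_le p f) ?_
  conv_lhs => unfold pg
  rw [Subgroup.closure_le]
  rintro x ⟨n, hn⟩
  obtain ⟨g, rfl⟩ := hf x
  obtain ⟨a, k, ha, hag⟩ := pel_lift p hp f g hn
  exact ⟨a, mem_pg p E ha, hag⟩

/-- a normal subgroup contained in `pg` whose elements have order prime to `p` is the commutator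
with the image of `pg` -/
theorem closure_of_le (V C : Type) [CommGroup V] [Finite V] [Group C]
    (hV : (Nat.card V).Coprime p) (φ : C →* MulAut V)
    (hle : ∀ v : V, (SemidirectProduct.inl v : V ⋊[φ] C) ∈ pg p (V ⋊[φ] C)) :
    Subgroup.closure {x : V | ∃ (v : V) (g : C), g ∈ pg p C ∧ x = φ g v * v⁻¹} = ⊤ := by
  obtain ⟨W, hW⟩ : ∃ W, W = Subgroup.closure
    {x : V | ∃ (v : V) (g : C), g ∈ pg p C ∧ x = φ g v * v⁻¹} := ⟨_, rfl⟩
  rw [← hW]
  have hmem : ∀ (v : V) (g : C), g ∈ pg p C → φ g v * v⁻¹ ∈ W := fun v g hg =>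
    hW ▸ Subgroup.subset_closure ⟨v, g, hg, rfl⟩
  have hiff : ∀ (v : V) (g : C), g ∈ pg p C → (φ g v ∈ W ↔ v ∈ W) := by
    intro v g hg
    have h1 : φ g v = (φ g v * v⁻¹) * v := by group
    rw [h1]
    exact Subgroup.mul_mem_cancel_left _ (hmem v g hg)
  let T : Subgroup (V ⋊[φ] C) :=
    { carrier := {a | a.right ∈ pg p C ∧ a.left ∈ W}
      mul_mem' := by
        rintro a b ⟨ha1, ha2⟩ ⟨hb1, hb2⟩
        exact ⟨Subgroup.mul_mem _ ha1 hb1,
          Subgroup.mul_mem _ ha2 ((hiff _ _ ha1).2 hb2)⟩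
      one_mem' := ⟨Subgroup.one_mem _, Subgroup.one_mem _⟩
      inv_mem' := by
        rintro a ⟨ha1, ha2⟩
        exact ⟨Subgroup.inv_mem _ ha1,
          (hiff _ _ (Subgroup.inv_mem _ ha1)).2 (Subgroup.inv_mem _ ha2)⟩ }
  have hT : pg p (V ⋊[φ] C) ≤ T := by
    conv_lhs => unfold pg
    rw [Subgroup.closure_le]
    rintro a ⟨n, hn⟩
    have har : a.right ∈ pg p C := by
      refine mem_pg p C (n := n) ?_
      have h1 := congrArg (SemidirectProduct.rightHom : V ⋊[φ] C →* C) hn
      rw [map_pow, map_one] at h1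
      exact h1
    have hpow : ∀ k : ℕ, (a ^ k).left * (a.left ^ k)⁻¹ ∈ W ∧ (a ^ k).right ∈ pg p C := by
      intro k
      induction k with
      | zero => exact ⟨by rw [pow_zero, pow_zero, SemidirectProduct.one_left, one_mul, inv_one]
                          exact Subgroup.one_mem _, Subgroup.one_mem _⟩
      | succ k ih =>
        refine ⟨?_, by rw [pow_succ, SemidirectProduct.mul_right]
                       exact Subgroup.mul_mem _ ih.2 har⟩
        rw [pow_succ, SemidirectProduct.mul_left, pow_succ]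
        have h1 : (a ^ k).left * (φ (a ^ k).right) a.left * (a.left ^ k * a.left)⁻¹ =
            ((a ^ k).left * (a.left ^ k)⁻¹) * ((φ (a ^ k).right) a.left * a.left⁻¹) := by
          rw [mul_inv]
          exact mul_mul_mul_comm _ _ _ _
        rw [h1]
        exact Subgroup.mul_mem _ ih.1 (hmem _ _ ih.2)
    refine ⟨har, ?_⟩
    have h1 := (hpow (p ^ n)).1
    rw [hn, SemidirectProduct.one_left, one_mul, inv_mem_iff] at h1
    have hcop : Nat.Coprime (p ^ n) (orderOf a.left) :=
      Nat.Coprime.coprime_dvd_right (orderOf_dvd_natCard a.left)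
        (Nat.Coprime.pow_left n hV.symm)
    obtain ⟨c, hc⟩ := exists_pow_eq_self_of_coprime hcop
    rw [← hc]
    exact Subgroup.pow_mem _ h1 c
  rw [eq_top_iff]
  intro v _
  exact (hT (hle v)).2

end basic

end Pool.Agent.AB3
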