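import Pool.Agent.Lib.MP_5de024_nt.S.FinX.Solv

/-!
# Series with layers generated by elements of `p`-power order
-/

set_option autoImplicit false
set_option linter.unusedSectionVars false

namespace Pool.Agent.AB3

open Pool.Agent.AB

/-- the factor `B / A` is generated by its elements of `p`-power order and its `l`-subgroups
are abelian for all primes `l ≠ p` -/
def LayQ (p : ℕ) (E : Type) [Group E] (A B : Subgroup E) : Prop :=
  Subgroup.closure {g : E | g ∈ B ∧ ∃ n : ℕ, g ^ (p ^ n) ∈ A} = B ∧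
  ∀ l : ℕ, l.Prime → l ≠ p → ∀ S : Subgroup E, A ≤ S → S ≤ B →
    (∀ g ∈ S, ∃ n : ℕ, g ^ (l ^ n) ∈ A) → ∀ a ∈ S, ∀ b ∈ S, a * b * a⁻¹ * b⁻¹ ∈ A

/-- the factor `B / A` is abelian of order prime to `p` and complemented in `E / A` -/
def LayC (p : ℕ) (E : Type) [Group E] (A B : Subgroup E) : Prop :=
  (∀ a ∈ B, ∀ b ∈ B, a * b * a⁻¹ * b⁻¹ ∈ A) ∧ (∃ m : ℕ, m.Coprime p ∧ ∀ g ∈ B, g ^ m ∈ A) ∧
    ∃ C : Subgroup E, B ⊔ C = ⊤ ∧ B ⊓ C = A

theorem layC_map (p : ℕ) {E E' : Type} [Group E] [Group E'] (f : E →* E')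
    (hf : Function.Surjective f) {A B : Subgroup E} (hk : f.ker ≤ A) (hAB : A ≤ B)
    (h : LayC p E A B) : LayC p E' (A.map f) (B.map f) := by
  obtain ⟨h1, ⟨m, hm, h2⟩, C, h3, h4⟩ := h
  refine ⟨?_, ⟨m, hm, ?_⟩, C.map f, ?_, ?_⟩
  · rintro _ ⟨a, ha, rfl⟩ _ ⟨b, hb, rfl⟩
    rw [← map_mul, ← map_inv, ← map_mul, ← map_inv, ← map_mul]
    exact Subgroup.mem_map_of_mem f (h1 a ha b hb)
  · rintro _ ⟨g, hg, rfl⟩
    rw [← map_pow]
    exact Subgroup.mem_map_of_mem f (h2 g hg)
  · rw [← Subgroup.map_sup, h3, Subgroup.map_top_of_surjective f hf]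
  · apply le_antisymm
    · rintro x ⟨⟨a, ha, hax⟩, ⟨c, hc, hcx⟩⟩
      have h5 : a⁻¹ * c ∈ A := by
        apply hk
        rw [MonoidHom.mem_ker, map_mul, map_inv, hax, hcx, inv_mul_cancel]
      have h6 : c ∈ A := by
        rw [← h4]
        refine ⟨?_, hc⟩
        have h7 : c = a * (a⁻¹ * c) := by group
        rw [h7]
        exact B.mul_mem ha (hAB h5)
      exact ⟨c, h6, hcx⟩
    · rintro _ ⟨a, ha, rfl⟩
      rw [← h4] at ha
      exact ⟨⟨a, ha.1, rfl⟩, ⟨a, ha.2, rfl⟩⟩

theorem layQ_map (p : ℕ) {E E' : Type} [Group E] [Group E'] (f : E →* E')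
    {A B : Subgroup E} (hk : f.ker ≤ A) (hAB : A ≤ B)
    (h : LayQ p E A B) : LayQ p E' (A.map f) (B.map f) := by
  have hmem : ∀ x : E, f x ∈ A.map f ↔ x ∈ A := by
    intro x
    constructor
    · rintro ⟨a, ha, hax⟩
      have h5 : a⁻¹ * x ∈ A := by
        apply hk
        rw [MonoidHom.mem_ker, map_mul, map_inv, hax, inv_mul_cancel]
      have h7 : x = a * (a⁻¹ * x) := by group
      rw [h7]
      exact A.mul_mem ha h5
    · exact fun hx => ⟨x, hx, rfl⟩
  obtain ⟨h1, h2⟩ := h
  constructor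
  · apply le_antisymm
    · rw [Subgroup.closure_le]
      exact fun g hg => hg.1
    · conv_lhs => rw [← h1]
      rw [MonoidHom.map_closure, Subgroup.closure_le]
      rintro _ ⟨g, ⟨hg, n, hn⟩, rfl⟩
      exact Subgroup.subset_closure ⟨⟨g, hg, rfl⟩, n, by
        rw [← map_pow]; exact ⟨_, hn, rfl⟩⟩
  · intro l hl hlp S hAS hSB hS a ha b hb
    obtain ⟨a', ha', rfl⟩ := hSB ha
    obtain ⟨b', hb', rfl⟩ := hSB hb
    rw [← map_mul, ← map_inv, ← map_mul, ← map_inv, ← map_mul, hmem]
    refine h2 l hl hlp (S.comap f) ?_ ?_ ?_ a' ha b' hb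
    · exact fun x hx => hAS ⟨x, hx, rfl⟩
    · intro x hx
      obtain ⟨y, hy, hyx⟩ := hSB hx
      have h5 : y⁻¹ * x ∈ A := by
        apply hk
        rw [MonoidHom.mem_ker, map_mul, map_inv, hyx, inv_mul_cancel]
      have h7 : x = y * (y⁻¹ * x) := by group
      rw [h7]
      exact B.mul_mem hy (hAB h5)
    · intro g hg
      obtain ⟨n, hn⟩ := hS (f g) hg
      rw [← map_pow, hmem] at hn
      exact ⟨n, hn⟩

/-- a normal subgroup generated by its elements of `p`-power order all of whose `l`-subgroups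
are abelian -/
theorem rf_refine (p : ℕ) [Fact p.Prime] : ∀ (n : ℕ) (E Q : Type) [Group E] [Finite E] [Group Q]
    (f : E →* Q), Function.Surjective f → Nat.card f.ker = n → Group.IsSolvable f.ker →
    f.ker ≤ Subgroup.closure {g : E | g ∈ f.ker ∧ ∃ k : ℕ, g ^ (p ^ k) = 1} →
    (∀ l : ℕ, l.Prime → l ≠ p → ∀ S : Subgroup E, S ≤ f.ker → IsPGroup l S →
      ∀ a ∈ S, ∀ b ∈ S, a * b = b * a) →
    RF p Q (pg p Q) → RF p E (pg p E) := by
  classical
  have hp : p.Prime := Fact.out
  intro n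
  induction n using Nat.strong_induction_on with
  | _ n ih =>
    intro E Q _ _ _ f hf hn hsol hgen hS hQ
    -- the induction hypothesis for a nontrivial normal subgroup
    have hquot : ∀ (V : Subgroup E) [V.Normal], V ≤ f.ker → V ≠ ⊥ →
        RF p (E ⧸ V) (pg p (E ⧸ V)) := by
      intro V _ hVk hV
      have hlift : ∀ x ∈ V, f x = 1 := fun x hx => hVk hx
      let g : E ⧸ V →* Q := QuotientGroup.lift V f hlift
      have hg : ∀ x : E, g (QuotientGroup.mk' V x) = f x := fun x => rfl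
      have hgs : Function.Surjective g := by
        intro y
        obtain ⟨x, rfl⟩ := hf y
        exact ⟨QuotientGroup.mk' V x, rfl⟩
      have hker : g.ker = f.ker.map (QuotientGroup.mk' V) := by
        ext y
        obtain ⟨x, rfl⟩ := QuotientGroup.mk'_surjective V y
        rw [MonoidHom.mem_ker, hg]
        constructor
        · exact fun hx => ⟨x, hx, rfl⟩
        · rintro ⟨z, hz, hzx⟩
          rw [← hg x, ← hzx, hg]
          exact hz
      let h : f.ker →* g.ker := ((QuotientGroup.mk' V).comp f.ker.subtype).codRestrict g.ker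
        (fun x => x.2)
      have hhs : Function.Surjective h := by
        rintro ⟨y, hy⟩
        obtain ⟨x, hx, hxy⟩ := hker.le hy
        exact ⟨⟨x, hx⟩, Subtype.ext hxy⟩
      have hcard : Nat.card g.ker < n := by
        rw [← hn]
        have h1 : Nat.card f.ker = Nat.card h.ker * Nat.card g.ker := by
          rw [← Subgroup.card_mul_index h.ker, Subgroup.index_ker,
            MonoidHom.range_eq_top.2 hhs, Subgroup.card_top]
        obtain ⟨v, hv, hv1⟩ : ∃ v ∈ V, v ≠ 1 := by
          by_contra hcon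
          push Not at hcon
          exact hV ((Subgroup.eq_bot_iff_forall V).2 hcon)
        have h2 : 1 < Nat.card h.ker := by
          rw [Finite.one_lt_card_iff_nontrivial]
          refine ⟨⟨⟨⟨v, hVk hv⟩, ?_⟩, 1, ?_⟩⟩
          · rw [MonoidHom.mem_ker]
            apply Subtype.ext
            exact (QuotientGroup.eq_one_iff v).2 hv
          · intro h3
            apply hv1
            exact congrArg (fun z : h.ker => ((z : f.ker) : E)) h3
        have h3 : 0 < Nat.card g.ker := Nat.card_pos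
        rw [h1]
        exact lt_mul_of_one_lt_left h3 h2
      refine ih _ hcard (E ⧸ V) Q g hgs rfl (Group.isSolvable_of_surjective hhs) ?_ ?_ hQ
      · rw [hker]
        refine (Subgroup.map_mono hgen).trans ?_
        rw [MonoidHom.map_closure, Subgroup.closure_le]
        rintro _ ⟨x, ⟨hx, k, hk⟩, rfl⟩
        exact Subgroup.subset_closure ⟨⟨x, hx, rfl⟩, k, by rw [← map_pow, hk, map_one]⟩
      · intro l hl hlp S hSle hSl
        refine sylow_quot (QuotientGroup.mk' V) l hl f.ker (hS l hl hlp) S ?_ hSl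
        rw [← hker]
        exact hSle
    by_cases hbot : f.ker = ⊥
    · have hinj : Function.Injective f := (MonoidHom.ker_eq_bot_iff f).1 hbot
      let e : E ≃* Q := MulEquiv.ofBijective f ⟨hinj, hf⟩
      have : Finite Q := Finite.of_surjective f hf
      exact rf_congr p e.symm hQ (pg_map p hp _ e.symm.surjective)
    by_cases hU : ∃ U : Subgroup E, U.Normal ∧ U ≤ f.ker ∧ IsPGroup p U ∧ U ≠ ⊥
    · obtain ⟨U, hUn, hUk, hUp, hU0⟩ := hU
      exact rf_stepA p E U hUp (hquot U hUk hU0)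
    · push Not at hU
      have hle : f.ker ≤ pg p E := by
        refine hgen.trans ?_
        rw [Subgroup.closure_le]
        rintro x ⟨-, k, hk⟩
        exact mem_pg p E hk
      obtain ⟨A, C, hAn, hAH, hA0, hAc, hAp, hsup, hinf⟩ := exists_compl p hp E f.ker
        (fun U h1 h2 h3 => hU U h1 h2 h3) hS (by
          intro hco
          apply hbot
          rw [eq_bot_iff]
          refine hgen.trans ?_
          rw [Subgroup.closure_le]
          rintro g ⟨hg, k, hk⟩
          have h1 : (⟨g, hg⟩ : f.ker) ^ Nat.card f.ker = 1 := pow_card_eq_one'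
          have h2 : g ^ Nat.card f.ker = 1 := congrArg Subtype.val h1
          exact mem_of_coprime (F := ⊥) (Nat.Coprime.pow_right k hco)
            (Subgroup.mem_bot.2 h2) (Subgroup.mem_bot.2 hk))
      exact rf_stepB p E A C hAc hAp (hAH.trans hle) hsup hinf (hquot A hAH hA0)

theorem rf_layQ (p : ℕ) [Fact p.Prime] (E : Type) [Group E] [Finite E] (V : Subgroup E)
    [V.Normal] (hsol : Group.IsSolvable V) (hV : LayQ p E ⊥ V)
    (h : RF p (E ⧸ V) (pg p (E ⧸ V))) : RF p E (pg p E) := by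
  obtain ⟨h1, h2⟩ := hV
  have hk : (QuotientGroup.mk' V).ker = V := QuotientGroup.ker_mk' V
  refine rf_refine p _ E (E ⧸ V) (QuotientGroup.mk' V) (QuotientGroup.mk'_surjective V) rfl
    ?_ ?_ ?_ h
  · rw [hk]
    exact hsol
  · rw [hk]
    conv_lhs => rw [← h1]
    apply Subgroup.closure_mono
    rintro g ⟨hg, k, hgk⟩
    exact ⟨hg, k, Subgroup.mem_bot.1 hgk⟩
  · intro l hl hlp S hSle hSl a ha b hb
    rw [hk] at hSle
    have h3 := h2 l hl hlp S bot_le hSle (fun g hg => by
      obtain ⟨k, hk⟩ := hSl ⟨g, hg⟩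
      exact ⟨k, Subgroup.mem_bot.2 (congrArg Subtype.val hk)⟩) a ha b hb
    exact mul_inv_eq_iff_eq_mul.1 (mul_inv_eq_one.1 (Subgroup.mem_bot.1 h3))

theorem rf_layC (p : ℕ) [Fact p.Prime] (E : Type) [Group E] [Finite E] (V : Subgroup E)
    [V.Normal] (hle : V ≤ pg p E) (hV : LayC p E ⊥ V)
    (h : RF p (E ⧸ V) (pg p (E ⧸ V))) : RF p E (pg p E) :=
  rf_lay p E V hle (Or.inr hV) h

/-- the main theorem -/
theorem rf_main (p : ℕ) [Fact p.Prime] : ∀ (r : ℕ) (E : Type) [Group E] [Finite E]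
    (N : ℕ → Subgroup E), Group.IsSolvable E → (∀ i, (N i).Normal) → N 0 = ⊥ → N r = pg p E →
    (∀ i < r, N i ≤ N (i + 1)) →
    (∀ i < r, LayC p E (N i) (N (i + 1)) ∨ LayQ p E (N i) (N (i + 1))) →
    IsCyclic (E ⧸ pg p E) → RF p E (pg p E) := by
  intro r
  induction r with
  | zero =>
    intro E _ _ N _ _ h0 hr _ _ hc
    exact rf_bot p E hc (by rw [← hr, h0])
  | succ r ih =>
    intro E _ _ N hsol hN h0 hr hmono hlay hc
    have hp : p.Prime := Fact.out
    have hN1 := hN 1
    have hle : ∀ i ≤ r, N 1 ≤ N (i + 1) := by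
      intro i hi
      induction i with
      | zero => exact le_refl _
      | succ i ih2 => exact (ih2 (by omega)).trans (hmono (i + 1) (by omega))
    have hsurj := QuotientGroup.mk'_surjective (N 1)
    have h1 : RF p (E ⧸ N 1) (pg p (E ⧸ N 1)) := by
      refine ih (E ⧸ N 1) (fun i => (N (i + 1)).map (QuotientGroup.mk' (N 1))) inferInstance
        ?_ ?_ ?_ ?_ ?_ (cyc_quot p E (N 1) hc)
      · intro i
        exact Subgroup.Normal.map (hN (i + 1)) _ hsurj
      · show (N (0 + 1)).map (QuotientGroup.mk' (N 1)) = ⊥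
        rw [Subgroup.map_eq_bot_iff, QuotientGroup.ker_mk']
      · show (N (r + 1)).map (QuotientGroup.mk' (N 1)) = _
        rw [hr, pg_map p hp _ hsurj]
      · intro i hi
        exact Subgroup.map_mono (hmono (i + 1) (by omega))
      · intro i hi
        have h2 : (QuotientGroup.mk' (N 1)).ker ≤ N (i + 1) := by
          rw [QuotientGroup.ker_mk']
          exact hle i (by omega)
        exact (hlay (i + 1) (by omega)).imp (layC_map p _ hsurj h2 (hmono (i + 1) (by omega)))
          (layQ_map p _ h2 (hmono (i + 1) (by omega)))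
    have h2 := hlay 0 (by omega)
    rw [h0] at h2
    rcases h2 with h2 | h2
    · refine rf_layC p E (N 1) ?_ h2 h1
      rw [← hr]
      exact hle r (le_refl _)
    · exact rf_layQ p E (N 1) inferInstance h2 h1

end Pool.Agent.AB3
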