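import Pool.Agent.Lib.MP_5de024_nt.S.FinX.Step
import Pool.Agent.Lib.MP_5de024_nt.Grp

/-!
# Groups with a normal series
-/

set_option autoImplicit false
set_option linter.unusedSectionVars false

namespace Pool.Agent.AB3

open Pool.Agent.AB Polynomial

/-- the factor `B / A` is a `p`-group, or an abelian group of order prime to `p` which has a
complement in `E / A` -/
def Lay (p : ℕ) (E : Type) [Group E] (A B : Subgroup E) : Prop :=
  (∀ g ∈ B, ∃ n : ℕ, g ^ (p ^ n) ∈ A) ∨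
  ((∀ a ∈ B, ∀ b ∈ B, a * b * a⁻¹ * b⁻¹ ∈ A) ∧ (∃ m : ℕ, m.Coprime p ∧ ∀ g ∈ B, g ^ m ∈ A) ∧
    ∃ C : Subgroup E, B ⊔ C = ⊤ ∧ B ⊓ C = A)

theorem lay_map (p : ℕ) {E E' : Type} [Group E] [Group E'] (f : E →* E')
    (hf : Function.Surjective f) {A B : Subgroup E} (hk : f.ker ≤ A) (hAB : A ≤ B)
    (h : Lay p E A B) : Lay p E' (A.map f) (B.map f) := by
  rcases h with h | ⟨h1, ⟨m, hm, h2⟩, C, h3, h4⟩
  · left
    rintro _ ⟨g, hg, rfl⟩
    obtain ⟨n, hn⟩ := h g hg
    exact ⟨n, by rw [← map_pow]; exact Subgroup.mem_map_of_mem f hn⟩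
  · right
    refine ⟨?_, ⟨m, hm, ?_⟩, C.map f, ?_, ?_⟩
    · rintro _ ⟨a, ha, rfl⟩ _ ⟨b, hb, rfl⟩
      rw [← map_mul, ← map_inv, ← map_mul, ← map_inv, ← map_mul]
      exact Subgroup.mem_map_of_mem f (h1 a ha b hb)
    · rintro _ ⟨g, hg, rfl⟩
      rw [← map_pow]
      exact Subgroup.mem_map_of_mem f (h2 g hg)
    · rw [← Subgroup.map_sup, h3, Subgroup.map_top_of_surjective f hf]
    · apply le_antisymm
      · rintro x ⟨⟨a, ha, hax⟩, ⟨c, hc, hcx⟩⟩
        have h5 : a⁻¹ * c ∈ A := by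
          apply hk
          rw [MonoidHom.mem_ker, map_mul, map_inv, hax, hcx, inv_mul_cancel]
        have h6 : c ∈ A := by
          rw [← h4]
          refine ⟨?_, hc⟩
          have h7 : c = a * (a⁻¹ * c) := by group
          rw [h7]
          exact B.mul_mem ha (hAB h5)
        exact ⟨c, h6, hcx⟩
      · rintro _ ⟨a, ha, rfl⟩
        rw [← h4] at ha
        exact ⟨⟨a, ha.1, rfl⟩, ⟨a, ha.2, rfl⟩⟩

theorem rf_lay (p : ℕ) [Fact p.Prime] (E : Type) [Group E] [Finite E] (V : Subgroup E)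
    [V.Normal] (hle : V ≤ pg p E) (hV : Lay p E ⊥ V)
    (h : RF p (E ⧸ V) (pg p (E ⧸ V))) : RF p E (pg p E) := by
  rcases hV with h1 | ⟨h1, ⟨m, hm, h2⟩, C, h3, h4⟩
  · refine rf_stepA p E V ?_ h
    intro g
    obtain ⟨n, hn⟩ := h1 g g.2
    exact ⟨n, Subtype.ext (Subgroup.mem_bot.1 hn)⟩
  · refine rf_stepB p E V C ?_ ?_ hle h3 h4 h
    · intro a ha b hb
      have h5 := Subgroup.mem_bot.1 (h1 a ha b hb)
      exact mul_inv_eq_iff_eq_mul.1 (mul_inv_eq_one.1 h5)
    · exact card_coprime_of_pow V m p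
        (fun g => Subtype.ext (Subgroup.mem_bot.1 (h2 (g : E) g.2))) hm.symm

theorem cyc_quot (p : ℕ) (E : Type) [Group E] [Finite E] (V : Subgroup E)
    [V.Normal] (h : IsCyclic (E ⧸ pg p E)) : IsCyclic ((E ⧸ V) ⧸ pg p (E ⧸ V)) := by
  let f : E →* (E ⧸ V) ⧸ pg p (E ⧸ V) :=
    (QuotientGroup.mk' (pg p (E ⧸ V))).comp (QuotientGroup.mk' V)
  have hf : Function.Surjective f :=
    (QuotientGroup.mk'_surjective _).comp (QuotientGroup.mk'_surjective _)
  let g : E ⧸ pg p E →* (E ⧸ V) ⧸ pg p (E ⧸ V) := QuotientGroup.lift (pg p E) f (by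
    intro x hx
    refine (QuotientGroup.eq_one_iff _).2 ?_
    exact pg_map_le p (QuotientGroup.mk' V) ⟨x, hx, rfl⟩)
  have hg : Function.Surjective g := by
    intro y
    obtain ⟨x, rfl⟩ := hf y
    exact ⟨QuotientGroup.mk' _ x, rfl⟩
  exact isCyclic_of_surjective g hg

theorem rf_bot (p : ℕ) [Fact p.Prime] (E : Type) [Group E] [Finite E]
    (hc : IsCyclic (E ⧸ pg p E)) (h : pg p E = ⊥) : RF p E (pg p E) := by
  have h1 : IsCyclic E := by
    have h2 : Function.Injective (QuotientGroup.mk' (pg p E)) := by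
      rw [← MonoidHom.ker_eq_bot_iff, QuotientGroup.ker_mk', h]
    exact isCyclic_of_injective _ h2
  rw [h]
  exact rf_base p E

theorem rf_series (p : ℕ) [Fact p.Prime] : ∀ (r : ℕ) (E : Type) [Group E] [Finite E]
    (N : ℕ → Subgroup E), (∀ i, (N i).Normal) → N 0 = ⊥ → N r = pg p E →
    (∀ i < r, N i ≤ N (i + 1)) → (∀ i < r, Lay p E (N i) (N (i + 1))) →
    IsCyclic (E ⧸ pg p E) → RF p E (pg p E) := by
  intro r
  induction r with
  | zero =>
    intro E _ _ N _ h0 hr _ _ hc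
    exact rf_bot p E hc (by rw [← hr, h0])
  | succ r ih =>
    intro E _ _ N hN h0 hr hmono hlay hc
    have hp : p.Prime := Fact.out
    have hN1 := hN 1
    have hle : ∀ i ≤ r, N 1 ≤ N (i + 1) := by
      intro i hi
      induction i with
      | zero => exact le_refl _
      | succ i ih2 => exact (ih2 (by omega)).trans (hmono (i + 1) (by omega))
    have hsurj := QuotientGroup.mk'_surjective (N 1)
    have h1 : RF p (E ⧸ N 1) (pg p (E ⧸ N 1)) := by
      refine ih (E ⧸ N 1) (fun i => (N (i + 1)).map (QuotientGroup.mk' (N 1))) ?_ ?_ ?_ ?_ ?_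
        (cyc_quot p E (N 1) hc)
      · intro i
        exact Subgroup.Normal.map (hN (i + 1)) _ hsurj
      · show (N (0 + 1)).map (QuotientGroup.mk' (N 1)) = ⊥
        rw [Subgroup.map_eq_bot_iff, QuotientGroup.ker_mk']
      · show (N (r + 1)).map (QuotientGroup.mk' (N 1)) = _
        rw [hr, pg_map p hp _ hsurj]
      · intro i hi
        exact Subgroup.map_mono (hmono (i + 1) (by omega))
      · intro i hi
        exact lay_map p _ hsurj (by rw [QuotientGroup.ker_mk']; exact hle i (by omega))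
          (hmono (i + 1) (by omega)) (hlay (i + 1) (by omega))
    refine rf_lay p E (N 1) ?_ ?_ h1
    · rw [← hr]
      exact hle r (le_refl _)
    · have h2 := hlay 0 (by omega)
      rwa [h0] at h2

end Pool.Agent.AB3
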