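import Mathlib

/-!
# Abelian layers in solvable groups
-/

set_option autoImplicit false
set_option linter.unusedSectionVars false

namespace Pool.Agent.AB3

theorem exists_layer (E : Type) [Group E] [Finite E] (F H : Subgroup E) [F.Normal] [H.Normal]
    [Group.IsSolvable H] (hFH : F < H) : ∃ (r : ℕ) (M : Subgroup E), r.Prime ∧ M.Normal ∧ F < M ∧
      M ≤ H ∧ (∀ a ∈ M, ∀ b ∈ M, a * b * a⁻¹ * b⁻¹ ∈ F) ∧ ∀ a ∈ M, a ^ r ∈ F := by
  classical
  obtain ⟨D, hD⟩ : ∃ D : ℕ → Subgroup E, D = fun k => (derivedSeries H k).map H.subtype :=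
    ⟨_, rfl⟩
  have hDn : ∀ k, (D k).Normal := by
    intro k
    rw [hD]
    exact ConjAct.normal_of_characteristic_of_normal
  have hD0 : D 0 = H := by
    rw [hD]
    show (derivedSeries H 0).map H.subtype = H
    rw [derivedSeries_zero, ← MonoidHom.range_eq_map, Subgroup.range_subtype]
  have hex : ∃ k, D k ≤ F := by
    obtain ⟨n, hn⟩ := (inferInstance : Group.IsSolvable H).solvable
    refine ⟨n, ?_⟩
    rw [hD]
    show (derivedSeries H n).map H.subtype ≤ F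
    rw [hn, Subgroup.map_bot]
    exact bot_le
  obtain ⟨k, hk, hmin⟩ : ∃ k, D k ≤ F ∧ ∀ j < k, ¬ D j ≤ F :=
    ⟨Nat.find hex, Nat.find_spec hex, fun j hj => Nat.find_min hex hj⟩
  have hk0 : k ≠ 0 := by
    rintro rfl
    rw [hD0] at hk
    exact hFH.not_ge hk
  obtain ⟨j, rfl⟩ := Nat.exists_eq_succ_of_ne_zero hk0
  have hj := hmin j (Nat.lt_succ_self j)
  have hDH : D j ≤ H := by
    rw [hD]
    rintro _ ⟨x, -, rfl⟩
    exact x.2
  have hcom : ∀ a ∈ D j, ∀ b ∈ D j, a * b * a⁻¹ * b⁻¹ ∈ F := by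
    intro a ha b hb
    apply hk
    rw [hD] at ha hb ⊢
    obtain ⟨x, hx, rfl⟩ := ha
    obtain ⟨y, hy, rfl⟩ := hb
    refine ⟨x * y * x⁻¹ * y⁻¹, ?_, rfl⟩
    rw [derivedSeries_succ]
    exact Subgroup.commutator_mem_commutator hx hy
  obtain ⟨π, hπ⟩ : ∃ π : E →* E ⧸ F, π = QuotientGroup.mk' F := ⟨_, rfl⟩
  have hπs : Function.Surjective π := hπ ▸ QuotientGroup.mk'_surjective F
  have hπ1 : ∀ a : E, π a = 1 ↔ a ∈ F := by
    intro a
    rw [hπ]
    exact QuotientGroup.eq_one_iff a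
  obtain ⟨A, hA⟩ : ∃ A, A = (D j).map π := ⟨_, rfl⟩
  have hAn : A.Normal := hA ▸ Subgroup.Normal.map (hDn j) π hπs
  have hAc : ∀ a ∈ A, ∀ b ∈ A, a * b = b * a := by
    rw [hA]
    rintro _ ⟨a, ha, rfl⟩ _ ⟨b, hb, rfl⟩
    have h1 := (hπ1 _).2 (hcom a ha b hb)
    rw [map_mul, map_mul, map_mul, map_inv, map_inv] at h1
    exact mul_inv_eq_iff_eq_mul.1 (mul_inv_eq_one.1 h1)
  have hA1 : Nat.card A ≠ 1 := by
    intro h1
    have h2 : A = ⊥ := Subgroup.card_eq_one.1 h1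
    apply hj
    intro a ha
    rw [← hπ1, ← Subgroup.mem_bot, ← h2, hA]
    exact Subgroup.mem_map_of_mem π ha
  obtain ⟨r, hr, hrd⟩ := Nat.exists_prime_and_dvd hA1
  have : Fact r.Prime := ⟨hr⟩
  obtain ⟨x, hx⟩ := exists_prime_orderOf_dvd_card' r hrd
  let B : Subgroup (E ⧸ F) :=
    { carrier := {a | a ∈ A ∧ a ^ r = 1}
      mul_mem' := by
        rintro a b ⟨ha, ha1⟩ ⟨hb, hb1⟩
        refine ⟨A.mul_mem ha hb, ?_⟩
        have h1 : Commute a b := hAc a ha b hb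
        rw [h1.mul_pow, ha1, hb1, one_mul]
      one_mem' := ⟨A.one_mem, one_pow r⟩
      inv_mem' := by
        rintro a ⟨ha, ha1⟩
        exact ⟨A.inv_mem ha, by rw [inv_pow, ha1, inv_one]⟩ }
  have hBn : B.Normal := by
    constructor
    rintro a ⟨ha, ha1⟩ g
    exact ⟨hAn.conj_mem a ha g, by rw [conj_pow, ha1, mul_one, mul_inv_cancel]⟩
  refine ⟨r, B.comap π, hr, hBn.comap π, ?_, ?_, ?_, ?_⟩
  · refine lt_of_le_of_ne ?_ ?_
    · intro a ha
      rw [Subgroup.mem_comap, (hπ1 a).2 ha]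
      exact B.one_mem
    · intro h1
      obtain ⟨y, hy⟩ := hπs x
      have h2 : y ∈ B.comap π := by
        rw [Subgroup.mem_comap, hy]
        refine ⟨x.2, ?_⟩
        have h3 := pow_orderOf_eq_one x
        rw [hx] at h3
        exact congrArg Subtype.val h3
      rw [← h1, ← hπ1, hy] at h2
      have h3 : x = 1 := Subtype.ext h2
      rw [h3, orderOf_one] at hx
      exact hr.one_lt.ne hx
  · rintro a ⟨ha, -⟩
    rw [hA] at ha
    obtain ⟨d, hd, hda⟩ := ha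
    have h1 : d⁻¹ * a ∈ F := by rw [← hπ1, map_mul, map_inv, hda, inv_mul_cancel]
    have h2 : a = d * (d⁻¹ * a) := by group
    rw [h2]
    exact H.mul_mem (hDH hd) (hFH.le h1)
  · rintro a ⟨ha, -⟩ b ⟨hb, -⟩
    rw [← hπ1, map_mul, map_mul, map_mul, map_inv, map_inv, hAc _ ha _ hb]
    group
  · rintro a ⟨ha, ha1⟩
    rw [← hπ1, map_pow, ha1]

end Pool.Agent.AB3
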