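import Pool.Agent.Lib.MP_5de024_nt.S.FinX.SolA

/-!
# The largest abelian normal subgroup of order prime to `p`
-/

set_option autoImplicit false
set_option linter.unusedSectionVars false

namespace Pool.Agent.AB3

theorem comm_of_coprime {E : Type} [Group E] {a b : E} {i j : ℕ} (h : i.Coprime j)
    (hi : Commute (a ^ i) b) (hj : Commute (a ^ j) b) : Commute a b := by
  have h1 : a = (a ^ i) ^ (Nat.gcdA i j) * (a ^ j) ^ (Nat.gcdB i j) := by
    rw [← zpow_natCast, ← zpow_natCast, ← zpow_mul, ← zpow_mul, ← zpow_add,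
      ← Nat.gcd_eq_gcd_ab, Nat.coprime_iff_gcd_eq_one.1 h]
    norm_num
  rw [h1]
  exact (hi.zpow_left _).mul_left (hj.zpow_left _)

theorem mem_of_coprime {E : Type} [Group E] {F : Subgroup E} {a : E} {i j : ℕ}
    (h : i.Coprime j) (hi : a ^ i ∈ F) (hj : a ^ j ∈ F) : a ∈ F := by
  have h1 : a = (a ^ i) ^ (Nat.gcdA i j) * (a ^ j) ^ (Nat.gcdB i j) := by
    rw [← zpow_natCast, ← zpow_natCast, ← zpow_mul, ← zpow_mul, ← zpow_add,
      ← Nat.gcd_eq_gcd_ab, Nat.coprime_iff_gcd_eq_one.1 h]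
    norm_num
  rw [h1]
  exact F.mul_mem (F.zpow_mem hi _) (F.zpow_mem hj _)

theorem exists_fit (p : ℕ) (hp : p.Prime) (E : Type) [Group E] [Finite E] (H : Subgroup E)
    [H.Normal] [Group.IsSolvable H]
    (hO : ∀ U : Subgroup E, U.Normal → U ≤ H → IsPGroup p U → U = ⊥)
    (hS : ∀ l : ℕ, l.Prime → l ≠ p → ∀ S : Subgroup E, S ≤ H → IsPGroup l S →
      ∀ a ∈ S, ∀ b ∈ S, a * b = b * a) :
    ∃ F : Subgroup E, F.Normal ∧ F ≤ H ∧ (∀ a ∈ F, ∀ b ∈ F, a * b = b * a) ∧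
      (Nat.card F).Coprime p ∧ ∀ x ∈ H, (∀ f ∈ F, x * f = f * x) → x ∈ F := by
  obtain ⟨F, hF⟩ : ∃ F, Maximal (fun F : Subgroup E => F.Normal ∧ F ≤ H ∧
      (∀ a ∈ F, ∀ b ∈ F, a * b = b * a) ∧ (Nat.card F).Coprime p) F := by
    refine (Set.toFinite {F : Subgroup E | F.Normal ∧ F ≤ H ∧
      (∀ a ∈ F, ∀ b ∈ F, a * b = b * a) ∧ (Nat.card F).Coprime p}).exists_maximal ?_
    refine ⟨⊥, inferInstance, bot_le, ?_, ?_⟩
    · intro a ha b hb
      rw [Subgroup.mem_bot.1 ha, Subgroup.mem_bot.1 hb]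
    · rw [Subgroup.card_bot]
      exact Nat.coprime_one_left p
  obtain ⟨⟨hFn, hFH, hFc, hFp⟩, hmax⟩ := hF
  refine ⟨F, hFn, hFH, hFc, hFp, ?_⟩
  let Z : Subgroup E :=
    { carrier := {x | x ∈ H ∧ ∀ f ∈ F, x * f = f * x}
      mul_mem' := by
        rintro a b ⟨ha, ha1⟩ ⟨hb, hb1⟩
        refine ⟨H.mul_mem ha hb, fun f hf => ?_⟩
        rw [mul_assoc, hb1 f hf, ← mul_assoc, ha1 f hf, mul_assoc]
      one_mem' := ⟨H.one_mem, fun f _ => by rw [one_mul, mul_one]⟩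
      inv_mem' := by
        rintro a ⟨ha, ha1⟩
        refine ⟨H.inv_mem ha, fun f hf => ?_⟩
        have h1 : Commute a f := ha1 f hf
        exact h1.inv_left }
  have hZn : Z.Normal := by
    constructor
    rintro a ⟨ha, ha1⟩ g
    refine ⟨(inferInstance : H.Normal).conj_mem a ha g, fun f hf => ?_⟩
    have h1 := ha1 (g⁻¹ * f * g) (by
      have := hFn.conj_mem f hf g⁻¹
      rwa [inv_inv] at this)
    calc g * a * g⁻¹ * f = g * (a * (g⁻¹ * f * g)) * g⁻¹ := by group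
      _ = g * ((g⁻¹ * f * g) * a) * g⁻¹ := by rw [h1]
      _ = f * (g * a * g⁻¹) := by group
  have hZH : Z ≤ H := fun x hx => hx.1
  by_contra hcon
  push Not at hcon
  obtain ⟨z, hzH, hz, hzF⟩ := hcon
  have hFZ : F < Z := by
    refine lt_of_le_of_ne (fun f hf => ⟨hFH hf, fun g hg => hFc f hf g hg⟩) ?_
    intro h1
    apply hzF
    rw [h1]
    exact ⟨hzH, hz⟩
  have hZsol : Group.IsSolvable Z :=
    Group.isSolvable_of_isSolvable_injective (Subgroup.inclusion_injective hZH)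
  obtain ⟨r, M, hr, hMn, hFM, hMZ, hMc, hMr⟩ := exists_layer E F Z hFZ
  have hnil : Group.IsNilpotent M := by
    let g : M →* E ⧸ F := (QuotientGroup.mk' F).comp M.subtype
    have hg1 : ∀ m : M, g m = 1 ↔ (m : E) ∈ F := fun m => QuotientGroup.eq_one_iff _
    let i1 : CommGroup g.range := { (inferInstance : Group g.range) with
      mul_comm := by
        rintro ⟨_, a, rfl⟩ ⟨_, b, rfl⟩
        apply Subtype.ext
        show g a * g b = g b * g a
        have h1 := (hg1 (a * b * a⁻¹ * b⁻¹)).2 (hMc a a.2 b b.2)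
        rw [map_mul, map_mul, map_mul, map_inv, map_inv] at h1
        exact mul_inv_eq_iff_eq_mul.1 (mul_inv_eq_one.1 h1) }
    have hk : g.rangeRestrict.ker ≤ Subgroup.center M := by
      intro m hm
      rw [MonoidHom.ker_rangeRestrict, MonoidHom.mem_ker, hg1] at hm
      rw [Subgroup.mem_center_iff]
      intro x
      exact Subtype.ext ((hMZ x.2).2 m hm)
    exact Subgroup.isNilpotent_of_ker_le_center g.rangeRestrict hk
  have hSyl : ∀ (q : ℕ) (_ : q.Prime) (x : M), (∃ k, x ^ q ^ k = 1) →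
      ∃ U : Subgroup E, U.Normal ∧ U ≤ M ∧ IsPGroup q U ∧ (x : E) ∈ U ∧
        ∀ y : M, (∃ k, y ^ q ^ k = 1) → (y : E) ∈ U := by
    intro q hq x hx
    have : Fact q.Prime := ⟨hq⟩
    obtain ⟨Q⟩ : Nonempty (Sylow q M) := inferInstance
    have hQn : (Q : Subgroup M).Normal := inferInstance
    have hQc : (Q : Subgroup M).Characteristic := Q.characteristic_of_normal hQn
    have hin : ∀ y : M, (∃ k, y ^ q ^ k = 1) → y ∈ (Q : Subgroup M) := by
      rintro y ⟨k, hk⟩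
      have h1 : IsPGroup q (Subgroup.zpowers y) := by
        rintro ⟨_, i, rfl⟩
        refine ⟨k, Subtype.ext ?_⟩
        show (y ^ i) ^ q ^ k = 1
        rw [← zpow_natCast, ← zpow_mul, mul_comm, zpow_mul, zpow_natCast, hk, one_zpow]
      obtain ⟨Q', hQ'⟩ := h1.exists_le_sylow
      have := Sylow.unique_of_normal Q hQn
      have h2 : Q' = Q := Subsingleton.elim _ _
      rw [← h2]
      exact hQ' (Subgroup.mem_zpowers y)
    refine ⟨(Q : Subgroup M).map M.subtype, ConjAct.normal_of_characteristic_of_normal, ?_,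
      Q.2.map _, ⟨x, hin x hx, rfl⟩, fun y hy => ⟨y, hin y hy, rfl⟩⟩
    rintro _ ⟨y, -, rfl⟩
    exact y.2
  have hMp : (Nat.card M).Coprime p := by
    rw [Nat.coprime_comm, Nat.Prime.coprime_iff_not_dvd hp]
    intro hdvd
    have : Fact p.Prime := ⟨hp⟩
    obtain ⟨x, hx⟩ := exists_prime_orderOf_dvd_card' p hdvd
    obtain ⟨U, hUn, hUM, hUp, hxU, -⟩ := hSyl p hp x ⟨1, by
      rw [pow_one, ← hx]
      exact pow_orderOf_eq_one x⟩
    rw [hO U hUn ((hUM.trans hMZ).trans hZH) hUp, Subgroup.mem_bot] at hxU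
    have h1 : x = 1 := Subtype.ext hxU
    rw [h1, orderOf_one] at hx
    exact hp.one_lt.ne hx
  have hrp : r ≠ p := by
    rintro rfl
    apply hFM.not_ge
    intro a ha
    refine mem_of_coprime hMp ?_ (hMr a ha)
    have h1 : (⟨a, ha⟩ : M) ^ Nat.card M = 1 := pow_card_eq_one'
    have h2 : a ^ Nat.card M = 1 := congrArg Subtype.val h1
    rw [h2]
    exact F.one_mem
  have hMab : ∀ a ∈ M, ∀ b ∈ M, a * b = b * a := by
    obtain ⟨s, n, hn, hcard⟩ := Nat.exists_eq_pow_mul_and_not_dvd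
      (Nat.card_pos (α := M)).ne' r hr.ne_one
    have hco : (r ^ (s + 1)).Coprime n :=
      Nat.Coprime.pow_left _ ((Nat.Prime.coprime_iff_not_dvd hr).2 hn)
    have hF1 : ∀ a ∈ M, a ^ r ^ (s + 1) ∈ F := by
      intro a ha
      rw [pow_succ', pow_mul]
      exact F.pow_mem (hMr a ha) _
    have hn1 : ∀ a ∈ M, ∃ k, (a ^ n) ^ r ^ k = 1 := by
      intro a ha
      refine ⟨s, ?_⟩
      have h1 : (⟨a, ha⟩ : M) ^ Nat.card M = 1 := pow_card_eq_one'
      have h2 : a ^ Nat.card M = 1 := congrArg Subtype.val h1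
      rw [← pow_mul, mul_comm, ← hcard, h2]
    have hFM1 : ∀ a ∈ F, ∀ b ∈ M, Commute a b := fun a ha b hb => ((hMZ hb).2 a ha).symm
    intro a ha b hb
    refine comm_of_coprime hco (hFM1 _ (hF1 a ha) b hb) ?_
    have han := M.pow_mem ha n
    have hbn := M.pow_mem hb n
    refine (comm_of_coprime hco (hFM1 _ (hF1 b hb) _ han) ?_).symm
    obtain ⟨k, hk⟩ := hn1 a ha
    obtain ⟨k', hk'⟩ := hn1 b hb
    obtain ⟨U, -, hUM, hUr, hxU, hall⟩ := hSyl r hr ⟨a ^ n, han⟩ ⟨k, Subtype.ext hk⟩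
    have hyU := hall ⟨b ^ n, hbn⟩ ⟨k', Subtype.ext hk'⟩
    exact hS r hr hrp U ((hUM.trans hMZ).trans hZH) hUr _ hyU _ hxU
  exact hFM.not_ge (hmax ⟨hMn, hMZ.trans hZH, hMab, hMp⟩ hFM.le)

end Pool.Agent.AB3
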