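import Pool.Agent.Lib.MP_5de024_nt.S.FinX.SolB

/-!
# The commutator with an `r`-group is complemented
-/

set_option autoImplicit false
set_option linter.unusedSectionVars false

namespace Pool.Agent.AB3

theorem compl_of (E : Type) [Group E] [Finite E] (F M R : Subgroup E) [F.Normal] [M.Normal]
    (hFc : ∀ a ∈ F, ∀ b ∈ F, a * b = b * a) (hRM : R ≤ M)
    (hMF : ∀ m ∈ M, ∃ f ∈ F, ∃ ρ ∈ R, m = f * ρ) (r : ℕ) (hr : r.Prime) (hR : IsPGroup r R)
    (hcom : ∀ f ∈ F, (∃ k, f ^ r ^ k = 1) → ∀ ρ ∈ R, ρ * f = f * ρ)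
    (hfr : Subgroup.normalizer (R : Set E) ⊔ M = ⊤) :
    ⁅F, M⁆ ⊔ Subgroup.normalizer (R : Set E) = ⊤ ∧
      ⁅F, M⁆ ⊓ Subgroup.normalizer (R : Set E) = ⊥ := by
  classical
  have : Fact r.Prime := ⟨hr⟩
  obtain ⟨A, hA⟩ : ∃ A, A = ⁅F, M⁆ := ⟨_, rfl⟩
  obtain ⟨C, hC⟩ : ∃ C, C = Subgroup.normalizer (R : Set E) := ⟨_, rfl⟩
  rw [← hA, ← hC]
  rw [← hC] at hfr
  have hAF : A ≤ F := hA ▸ Subgroup.commutator_le_left F M
  obtain ⟨k, n, hn, hcard⟩ := Nat.exists_eq_pow_mul_and_not_dvd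
    (Nat.card_pos (α := F)).ne' r hr.ne_one
  obtain ⟨s, hs⟩ := hR.exists_card_eq
  have hco : ∀ i : ℕ, (r ^ i).Coprime n := fun i =>
    Nat.Coprime.pow_left _ ((Nat.Prime.coprime_iff_not_dvd hr).2 hn)
  have hFcard : ∀ f ∈ F, f ^ (r ^ k * n) = 1 := by
    intro f hf
    have h1 : (⟨f, hf⟩ : F) ^ Nat.card F = 1 := pow_card_eq_one'
    rw [← hcard]
    exact congrArg Subtype.val h1
  -- elements of `F` of `r`-power order
  have hrk : ∀ f ∈ F, (∃ j, f ^ r ^ j = 1) → f ^ r ^ k = 1 := by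
    rintro f hf ⟨j, hj⟩
    rw [← Subgroup.mem_bot]
    refine mem_of_coprime (hco j) ?_ ?_
    · rw [Subgroup.mem_bot, ← pow_mul, mul_comm, pow_mul, hj, one_pow]
    · rw [Subgroup.mem_bot, ← pow_mul, hFcard f hf]
  have hfn : ∀ f ∈ F, ∀ ρ ∈ R, ρ * f ^ n = f ^ n * ρ := by
    intro f hf ρ hρ
    refine hcom (f ^ n) (F.pow_mem hf n) ⟨k, ?_⟩ ρ hρ
    rw [← pow_mul, mul_comm, hFcard f hf]
  -- `F` as a commutative group with an action
  let i1 : CommGroup F := { (inferInstance : Group F) with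
    mul_comm := fun a b => Subtype.ext (hFc a a.2 b b.2) }
  let φ : E → F → F := fun g f => ⟨g * f * g⁻¹, (inferInstance : F.Normal).conj_mem f f.2 g⟩
  have hφmul : ∀ g a b, φ g (a * b) = φ g a * φ g b := by
    intro g a b
    apply Subtype.ext
    show g * ((a : E) * b) * g⁻¹ = (g * a * g⁻¹) * (g * b * g⁻¹)
    group
  have hφinv : ∀ g a, φ g a⁻¹ = (φ g a)⁻¹ := by
    intro g a
    apply Subtype.ext
    show g * (a : E)⁻¹ * g⁻¹ = (g * a * g⁻¹)⁻¹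
    group
  have hφφ : ∀ g g' a, φ g (φ g' a) = φ (g * g') a := by
    intro g g' a
    apply Subtype.ext
    show g * (g' * (a : E) * g'⁻¹) * g⁻¹ = (g * g') * a * (g * g')⁻¹
    group
  have hφF : ∀ g ∈ F, ∀ a, φ g a = a := by
    intro g hg a
    apply Subtype.ext
    show g * (a : E) * g⁻¹ = a
    rw [hFc g hg a a.2, mul_inv_cancel_right]
  have : Fintype R := Fintype.ofFinite R
  have hRc : Fintype.card R = r ^ s := by rw [← Nat.card_eq_fintype_card, hs]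
  let ν : F →* F :=
    { toFun := fun f => ∏ ρ : R, φ ρ f
      map_one' := by
        refine Finset.prod_eq_one fun ρ _ => Subtype.ext ?_
        show (ρ : E) * 1 * (ρ : E)⁻¹ = 1
        group
      map_mul' := by
        intro a b
        rw [← Finset.prod_mul_distrib]
        exact Finset.prod_congr rfl fun ρ _ => hφmul _ _ _ }
  have hν : ∀ f, ν f = ∏ ρ : R, φ ρ f := fun f => rfl
  have hν1 : ∀ (σ : R) (f : F), ν (φ σ f) = ν f := by
    intro σ f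
    rw [hν, hν, ← Equiv.prod_comp (Equiv.mulRight σ) (fun ρ : R => φ ρ f)]
    exact Finset.prod_congr rfl fun ρ _ => hφφ _ _ _
  have hφhom : ∀ g : E, ∃ ψ : F →* F, ∀ a, ψ a = φ g a := fun g =>
    ⟨{ toFun := φ g
       map_one' := Subtype.ext (by
        show g * 1 * g⁻¹ = 1
        group)
       map_mul' := hφmul g }, fun _ => rfl⟩
  have hν2 : ∀ (σ : R) (f : F), φ σ (ν f) = ν f := by
    intro σ f
    obtain ⟨ψ, hψ⟩ := hφhom σ
    rw [← hψ, hν, map_prod, ← Equiv.prod_comp (Equiv.mulLeft σ) (fun ρ : R => φ ρ f)]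
    refine Finset.prod_congr rfl fun ρ _ => ?_
    rw [hψ]
    exact hφφ _ _ _
  have hνC : ∀ f : F, ((ν f : F) : E) ∈ C := by
    intro f
    rw [hC, Subgroup.mem_normalizer_iff]
    have h1 : ∀ ρ ∈ R, ((ν f : F) : E) * ρ * ((ν f : F) : E)⁻¹ = ρ := by
      intro ρ hρ
      have h2 : ρ * ((ν f : F) : E) * ρ⁻¹ = ((ν f : F) : E) :=
        congrArg Subtype.val (hν2 ⟨ρ, hρ⟩ f)
      have h3 : ρ * ((ν f : F) : E) = ((ν f : F) : E) * ρ := by
        rw [← mul_inv_eq_iff_eq_mul]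
        exact h2
      rw [← h3, mul_inv_cancel_right]
    intro ρ
    constructor
    · intro hρ
      rw [h1 ρ hρ]
      exact hρ
    · intro hρ
      have h2 := h1 _ hρ
      have h3 : ((ν f : F) : E) * ρ * ((ν f : F) : E)⁻¹ = ρ := by
        have h4 : ((ν f : F) : E)⁻¹ * (((ν f : F) : E) * (((ν f : F) : E) * ρ *
          ((ν f : F) : E)⁻¹) * ((ν f : F) : E)⁻¹) * ((ν f : F) : E) =
          ((ν f : F) : E)⁻¹ * (((ν f : F) : E) * ρ * ((ν f : F) : E)⁻¹) * ((ν f : F) : E) := by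
          rw [h2]
        have h5 : ((ν f : F) : E) * ρ * ((ν f : F) : E)⁻¹ = ((ν f : F) : E)⁻¹ *
          (((ν f : F) : E) * (((ν f : F) : E) * ρ *
          ((ν f : F) : E)⁻¹) * ((ν f : F) : E)⁻¹) * ((ν f : F) : E) := by group
        rw [h5, h4]
        group
      rwa [h3] at hρ
  -- generators of `A`
  have hgen : ∀ f ∈ F, ∀ m ∈ M, ∃ ρ ∈ R, f * m * f⁻¹ * m⁻¹ = f * (ρ * f⁻¹ * ρ⁻¹) := by
    intro f hf m hm
    obtain ⟨f', hf', ρ, hρ, rfl⟩ := hMF m hm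
    refine ⟨ρ, hρ, ?_⟩
    have h1 : f' * (ρ * f⁻¹ * ρ⁻¹) * f'⁻¹ = ρ * f⁻¹ * ρ⁻¹ := by
      rw [hFc f' hf' _ ((inferInstance : F.Normal).conj_mem _ (F.inv_mem hf) ρ),
        mul_inv_cancel_right]
    calc f * (f' * ρ) * f⁻¹ * (f' * ρ)⁻¹ = f * (f' * (ρ * f⁻¹ * ρ⁻¹) * f'⁻¹) := by group
      _ = _ := by rw [h1]
  have hgenA : ∀ f ∈ F, ∀ ρ ∈ R, f * (ρ * f⁻¹ * ρ⁻¹) ∈ A := by
    intro f hf ρ hρ
    have h1 : f * (ρ * f⁻¹ * ρ⁻¹) = f * ρ * f⁻¹ * ρ⁻¹ := by group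
    rw [h1, hA]
    exact Subgroup.commutator_mem_commutator hf (hRM hρ)
  -- two homomorphisms vanish on `A`
  have hker : ∀ ψ : F →* F, (∀ (f : F) (ρ : E), ρ ∈ R → ψ (φ ρ f) = ψ f) →
      ∀ (a : E) (ha : a ∈ A), ψ ⟨a, hAF ha⟩ = 1 := by
    intro ψ hψ
    have h1 : A ≤ ψ.ker.map F.subtype := by
      rw [hA, Subgroup.commutator_le]
      intro f hf m hm
      obtain ⟨ρ, hρ, h2⟩ := hgen f hf m hm
      refine ⟨⟨f, hf⟩ * φ ρ (⟨f, hf⟩)⁻¹, ?_, h2.symm⟩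
      show ψ (⟨f, hf⟩ * φ ρ (⟨f, hf⟩)⁻¹) = 1
      rw [map_mul, hψ _ ρ hρ, map_inv, mul_inv_cancel]
    intro a ha
    obtain ⟨b, hb, hba⟩ := h1 ha
    have h2 : b = ⟨a, hAF ha⟩ := Subtype.ext hba
    rw [← h2]
    exact hb
  have hAν : ∀ (a : E) (ha : a ∈ A), ν ⟨a, hAF ha⟩ = 1 :=
    hker ν fun f ρ hρ => hν1 ⟨ρ, hρ⟩ f
  have hAn : ∀ a ∈ A, a ^ n = 1 := by
    intro a ha
    have h1 := hker (powMonoidHom n) (fun f ρ hρ => by
      rw [powMonoidHom_apply, powMonoidHom_apply]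
      apply Subtype.ext
      show (ρ * (f : E) * ρ⁻¹) ^ n = (f : E) ^ n
      rw [conj_pow, hfn f f.2 ρ hρ, mul_inv_cancel_right]) a ha
    exact congrArg Subtype.val h1
  constructor
  · rw [eq_top_iff, ← hfr]
    apply sup_le le_sup_right
    have hFAC : F ≤ A ⊔ C := by
      intro f hf
      refine mem_of_coprime (hco s) ?_ ?_
      · have h1 : (⟨f, hf⟩ : F) ^ r ^ s =
            (∏ ρ : R, (⟨f, hf⟩ * (φ ρ ⟨f, hf⟩)⁻¹)) * ν ⟨f, hf⟩ := by
          rw [hν, ← Finset.prod_mul_distrib]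
          simp only [inv_mul_cancel_right, Finset.prod_const, Finset.card_univ, hRc]
        have h2 : f ^ r ^ s = ((∏ ρ : R, (⟨f, hf⟩ * (φ ρ ⟨f, hf⟩)⁻¹) : F) : E) *
            ((ν ⟨f, hf⟩ : F) : E) := congrArg Subtype.val h1
        rw [h2]
        refine Subgroup.mul_mem_sup ?_ (hνC _)
        have h3 : (∏ ρ : R, (⟨f, hf⟩ * (φ ρ ⟨f, hf⟩)⁻¹) : F) ∈ A.subgroupOf F := by
          refine Subgroup.prod_mem _ fun ρ _ => ?_
          rw [Subgroup.mem_subgroupOf]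
          have h4 := hgenA f hf ρ ρ.2
          rw [← hφinv]
          exact h4
        exact Subgroup.mem_subgroupOf.1 h3
      · refine Subgroup.mem_sup_right ?_
        rw [hC, Subgroup.mem_normalizer_iff]
        intro ρ
        have h1 : ∀ σ ∈ R, f ^ n * σ * (f ^ n)⁻¹ = σ := by
          intro σ hσ
          rw [← hfn f hf σ hσ, mul_inv_cancel_right]
        constructor
        · intro hρ
          rw [h1 ρ hρ]
          exact hρ
        · intro hρ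
          have h2 := h1 _ hρ
          have h3 : f ^ n * ρ * (f ^ n)⁻¹ = ρ := by
            have h5 : f ^ n * ρ * (f ^ n)⁻¹ = (f ^ n)⁻¹ * (f ^ n * (f ^ n * ρ * (f ^ n)⁻¹) *
              (f ^ n)⁻¹) * f ^ n := by group
            rw [h5, h2]
            group
          rwa [h3] at hρ
    intro m hm
    obtain ⟨f, hf, ρ, hρ, rfl⟩ := hMF m hm
    refine Subgroup.mul_mem _ (hFAC hf) (Subgroup.mem_sup_right ?_)
    rw [hC]
    exact Subgroup.le_normalizer hρ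
  · rw [eq_bot_iff]
    rintro a ⟨haA, haC⟩
    have haF := hAF haA
    rw [hC] at haC
    have haC' := Subgroup.mem_normalizer_iff.1 haC
    refine mem_of_coprime (hco (s + k)) ?_ (by rw [Subgroup.mem_bot]; exact hAn a haA)
    have h1 : ∀ ρ : R, ((φ ρ ⟨a, haF⟩) * (⟨a, haF⟩ : F)⁻¹) ^ r ^ k = 1 := by
      intro ρ
      apply Subtype.ext
      show ((ρ : E) * a * (ρ : E)⁻¹ * a⁻¹) ^ r ^ k = 1
      refine hrk _ (F.mul_mem ((inferInstance : F.Normal).conj_mem a haF ρ) (F.inv_mem haF)) ?_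
      have h2 : (ρ : E) * a * (ρ : E)⁻¹ * a⁻¹ ∈ R := by
        have h3 : (ρ : E) * a * (ρ : E)⁻¹ * a⁻¹ = ρ * (a * (ρ : E)⁻¹ * a⁻¹) := by group
        rw [h3]
        exact R.mul_mem ρ.2 ((haC' _).1 (R.inv_mem ρ.2))
      obtain ⟨j, hj⟩ := hR ⟨_, h2⟩
      exact ⟨j, congrArg Subtype.val hj⟩
    have h2 : (∏ ρ : R, ((φ ρ ⟨a, haF⟩) * (⟨a, haF⟩ : F)⁻¹)) * (⟨a, haF⟩ : F) ^ r ^ s = 1 := by
      rw [← hAν a haA, hν, ← hRc, ← Finset.card_univ, ← Finset.prod_const,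
        ← Finset.prod_mul_distrib]
      exact Finset.prod_congr rfl fun ρ _ => inv_mul_cancel_right _ _
    have h3 : (⟨a, haF⟩ : F) ^ r ^ (s + k) = 1 := by
      rw [pow_add, pow_mul, eq_inv_of_mul_eq_one_right h2, inv_pow, ← Finset.prod_pow]
      rw [Finset.prod_eq_one fun ρ _ => h1 ρ, inv_one]
    rw [Subgroup.mem_bot]
    exact congrArg Subtype.val h3

end Pool.Agent.AB3
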