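import Pool.Agent.Lib.MP_5de024_nt.S.FinX.SolC

/-!
# A complemented abelian normal subgroup
-/

set_option autoImplicit false
set_option linter.unusedSectionVars false

namespace Pool.Agent.AB3

theorem exists_compl (p : ℕ) (hp : p.Prime) (E : Type) [Group E] [Finite E] (H : Subgroup E)
    [H.Normal] [Group.IsSolvable H]
    (hO : ∀ U : Subgroup E, U.Normal → U ≤ H → IsPGroup p U → U = ⊥)
    (hS : ∀ l : ℕ, l.Prime → l ≠ p → ∀ S : Subgroup E, S ≤ H → IsPGroup l S →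
      ∀ a ∈ S, ∀ b ∈ S, a * b = b * a) (hH : ¬ (Nat.card H).Coprime p) :
    ∃ A C : Subgroup E, A.Normal ∧ A ≤ H ∧ A ≠ ⊥ ∧ (∀ a ∈ A, ∀ b ∈ A, a * b = b * a) ∧
      (Nat.card A).Coprime p ∧ A ⊔ C = ⊤ ∧ A ⊓ C = ⊥ := by
  classical
  obtain ⟨F, hFn, hFH, hFc, hFp, hFcen⟩ := exists_fit p hp E H hO hS
  have hlt : F < H := by
    refine lt_of_le_of_ne hFH ?_
    rintro rfl
    exact hH hFp
  obtain ⟨r, M, hr, hMn, hFM, hMH, hMc, hMr⟩ := exists_layer E F H hlt
  have : Fact r.Prime := ⟨hr⟩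
  obtain ⟨P⟩ : Nonempty (Sylow r M) := inferInstance
  obtain ⟨R, hRdef⟩ : ∃ R, R = (P : Subgroup M).map M.subtype := ⟨_, rfl⟩
  have hRM : R ≤ M := by
    rw [hRdef]
    rintro _ ⟨x, -, rfl⟩
    exact x.2
  have hR : IsPGroup r R := hRdef ▸ P.2.map M.subtype
  have hfr : Subgroup.normalizer (R : Set E) ⊔ M = ⊤ := hRdef ▸ P.normalizer_sup_eq_top
  obtain ⟨s, n, hn, hcard⟩ := Nat.exists_eq_pow_mul_and_not_dvd
    (Nat.card_pos (α := M)).ne' r hr.ne_one
  have hco : (r ^ (s + 1)).Coprime n :=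
    Nat.Coprime.pow_left _ ((Nat.Prime.coprime_iff_not_dvd hr).2 hn)
  have hMF : ∀ m ∈ M, ∃ f ∈ F, ∃ ρ ∈ R, m = f * ρ := by
    have h0 : M ≤ F ⊔ R := by
      intro m hm
      refine mem_of_coprime hco ?_ ?_
      · refine Subgroup.mem_sup_left ?_
        rw [pow_succ', pow_mul]
        exact F.pow_mem (hMr m hm) _
      · obtain ⟨x, hx⟩ : ∃ x : M, x = ⟨m, hm⟩ ^ n := ⟨_, rfl⟩
        have hxp : IsPGroup r (Subgroup.zpowers x) := by
          rintro ⟨_, i, rfl⟩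
          refine ⟨s, Subtype.ext ?_⟩
          show (x ^ i) ^ r ^ s = 1
          have h1 : x ^ r ^ s = 1 := by
            rw [hx, ← pow_mul, mul_comm, ← hcard]
            exact pow_card_eq_one'
          rw [← zpow_natCast, ← zpow_mul, mul_comm, zpow_mul, zpow_natCast, h1, one_zpow]
        obtain ⟨Q, hQ⟩ := hxp.exists_le_sylow
        obtain ⟨g, hg⟩ := MulAction.exists_smul_eq M P Q
        have h2 : x ∈ (Q : Subgroup M) := hQ (Subgroup.mem_zpowers x)
        rw [← hg, Sylow.coe_subgroup_smul, Subgroup.mem_pointwise_smul_iff_inv_smul_mem] at h2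
        have h3 : g⁻¹ * x * g ∈ (P : Subgroup M) := by
          have h4 : (MulAut.conj g)⁻¹ • x = g⁻¹ * x * g := by
            rw [← map_inv, MulAut.smul_def, MulAut.conj_apply, inv_inv]
          rw [← h4]
          exact h2
        have h5 : ((g : E)⁻¹ * m ^ n * g) ∈ R := by
          rw [hRdef]
          refine ⟨_, h3, ?_⟩
          rw [hx]
          rfl
        have h6 : m ^ n = (g * ((g : E)⁻¹ * m ^ n * g) * (g : E)⁻¹ *
            ((g : E)⁻¹ * m ^ n * g)⁻¹) * ((g : E)⁻¹ * m ^ n * g) := by group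
        rw [h6]
        exact Subgroup.mul_mem_sup (hMc _ g.2 _ (hRM h5)) h5
    intro m hm
    have h1 := h0 hm
    rw [Subgroup.mem_sup_of_normal_left] at h1
    obtain ⟨f, hf, ρ, hρ, h2⟩ := h1
    exact ⟨f, hf, ρ, hρ, h2.symm⟩
  -- `r`-elements of `F` commute with `R`
  have hcom : ∀ f ∈ F, (∃ k, f ^ r ^ k = 1) → ∀ ρ ∈ R, ρ * f = f * ρ := by
    intro f hf hk ρ hρ
    let U : Subgroup E :=
      { carrier := {x | x ∈ F ∧ ∃ k, x ^ r ^ k = 1}
        mul_mem' := by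
          rintro a b ⟨ha, k, hk⟩ ⟨hb, j, hj⟩
          refine ⟨F.mul_mem ha hb, k + j, ?_⟩
          have h1 : Commute a b := hFc a ha b hb
          rw [h1.mul_pow, pow_add, pow_mul, hk, one_pow, one_mul, mul_comm, pow_mul, hj, one_pow]
        one_mem' := ⟨F.one_mem, 0, one_pow _⟩
        inv_mem' := by
          rintro a ⟨ha, k, hk⟩
          exact ⟨F.inv_mem ha, k, by rw [inv_pow, hk, inv_one]⟩ }
    have hUn : U.Normal := by
      constructor
      rintro a ⟨ha, k, hk⟩ g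
      exact ⟨hFn.conj_mem a ha g, k, by rw [conj_pow, hk, mul_one, mul_inv_cancel]⟩
    have hUp : IsPGroup r U := by
      rintro ⟨a, ha, k, hk⟩
      exact ⟨k, Subtype.ext hk⟩
    have hUF : U ≤ F := fun x hx => hx.1
    by_cases hrp : r = p
    · have h1 : U = ⊥ := hO U hUn (hUF.trans hFH) (hrp ▸ hUp)
      have h2 : f ∈ U := ⟨hf, hk⟩
      rw [h1, Subgroup.mem_bot] at h2
      rw [h2, mul_one, one_mul]
    · have h1 : IsPGroup r (R ⊔ U : Subgroup E) := hR.to_sup_of_normal_right hUp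
      have h2 : R ⊔ U ≤ H := sup_le (hRM.trans hMH) (hUF.trans hFH)
      exact hS r hr hrp _ h2 h1 _ (Subgroup.mem_sup_left hρ) _ (Subgroup.mem_sup_right ⟨hf, hk⟩)
  obtain ⟨h1, h2⟩ := compl_of E F M R hFc hRM hMF r hr hR hcom hfr
  have hAF : ⁅F, M⁆ ≤ F := Subgroup.commutator_le_left F M
  refine ⟨⁅F, M⁆, Subgroup.normalizer (R : Set E), inferInstance, hAF.trans hFH, ?_,
    fun a ha b hb => hFc a (hAF ha) b (hAF hb), ?_, h1, h2⟩
  · intro h3
    apply hFM.not_ge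
    intro m hm
    refine hFcen m (hMH hm) fun f hf => ?_
    have h4 : f * m * f⁻¹ * m⁻¹ ∈ ⁅F, M⁆ := Subgroup.commutator_mem_commutator hf hm
    rw [h3, Subgroup.mem_bot] at h4
    have h5 : f * m = m * f := mul_inv_eq_iff_eq_mul.1 (mul_inv_eq_one.1 h4)
    exact h5.symm
  · exact Nat.Coprime.coprime_dvd_left (Subgroup.card_dvd_of_le hAF) hFp

/-- `l`-subgroups of a quotient -/
theorem sylow_quot {E E' : Type} [Group E] [Finite E] [Group E'] (f : E →* E')
    (l : ℕ) (hl : l.Prime) (H : Subgroup E)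
    (hS : ∀ S : Subgroup E, S ≤ H → IsPGroup l S → ∀ a ∈ S, ∀ b ∈ S, a * b = b * a)
    (S : Subgroup E') (hSH : S ≤ H.map f) (hSl : IsPGroup l S) :
    ∀ a ∈ S, ∀ b ∈ S, a * b = b * a := by
  classical
  have : Fact l.Prime := ⟨hl⟩
  obtain ⟨X, hX⟩ : ∃ X, X = S.comap f ⊓ H := ⟨_, rfl⟩
  have hXle : X ≤ S.comap f ⊓ H := hX.le
  have hXS : ∀ x : X, f x ∈ S := fun x => (hXle x.2).1
  let g : X →* S := (f.comp X.subtype).codRestrict S hXS
  have hg : Function.Surjective g := by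
    rintro ⟨y, hy⟩
    obtain ⟨x, hx, hxy⟩ := hSH hy
    refine ⟨⟨x, ?_⟩, Subtype.ext hxy⟩
    rw [hX]
    refine ⟨?_, hx⟩
    show f x ∈ S
    rw [hxy]
    exact hy
  obtain ⟨P⟩ : Nonempty (Sylow l X) := inferInstance
  have hfin : Finite S := Finite.of_surjective g hg
  have htop : ((P.mapSurjective hg : Sylow l S) : Subgroup S) = ⊤ := by
    have h1 : IsPGroup l (⊤ : Subgroup S) := hSl.to_subgroup ⊤
    exact ((P.mapSurjective hg).3 h1 le_top).symm
  rw [Sylow.coe_mapSurjective] at htop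
  have hP : ∀ a ∈ S, ∃ x ∈ (P : Subgroup X).map X.subtype, f x = a := by
    intro a ha
    have h1 : (⟨a, ha⟩ : S) ∈ (P : Subgroup X).map g := by
      rw [htop]
      exact Subgroup.mem_top _
    obtain ⟨x, hx, hxa⟩ := h1
    exact ⟨x, ⟨x, hx, rfl⟩, congrArg Subtype.val hxa⟩
  have hPH : (P : Subgroup X).map X.subtype ≤ H := by
    rintro _ ⟨x, -, rfl⟩
    exact (hXle x.2).2
  intro a ha b hb
  obtain ⟨x, hx, rfl⟩ := hP a ha
  obtain ⟨y, hy, rfl⟩ := hP b hb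
  rw [← map_mul, ← map_mul, hS _ hPH (P.2.map X.subtype) x hx y hy]

end Pool.Agent.AB3
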