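import Pool.Agent.Lib.MP_5de024_nt.S.FinX.Series
import Pool.Agent.Lib.MP_5de024_nt.S.FinX.SolD

/-!
# Solvable groups
-/

set_option autoImplicit false
set_option linter.unusedSectionVars false

namespace Pool.Agent.AB3

open Pool.Agent.AB

theorem rf_solv (p : ℕ) [Fact p.Prime] : ∀ (n : ℕ) (E : Type) [Group E] [Finite E],
    Nat.card E = n → Group.IsSolvable E →
    (∀ l : ℕ, l.Prime → l ≠ p → ∀ S : Subgroup E, S ≤ pg p E → IsPGroup l S →
      ∀ a ∈ S, ∀ b ∈ S, a * b = b * a) →
    IsCyclic (E ⧸ pg p E) → RF p E (pg p E) := by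
  classical
  have hp : p.Prime := Fact.out
  intro n
  induction n using Nat.strong_induction_on with
  | _ n ih =>
    intro E _ _ hn hsol hS hc
    -- the induction hypothesis for a nontrivial normal subgroup
    have hquot : ∀ (V : Subgroup E) [V.Normal], V ≠ ⊥ → RF p (E ⧸ V) (pg p (E ⧸ V)) := by
      intro V _ hV
      have hcard : Nat.card (E ⧸ V) < n := by
        rw [← hn, ← Subgroup.card_mul_index V, ← Subgroup.index_eq_card]
        have h1 : 1 < Nat.card V := by
          have h2 : 0 < Nat.card V := Nat.card_pos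
          have h3 : Nat.card V ≠ 1 := fun h => hV (Subgroup.card_eq_one.1 h)
          omega
        have h2 : 0 < V.index := Nat.pos_of_ne_zero Subgroup.FiniteIndex.index_ne_zero
        exact lt_mul_of_one_lt_left h2 h1
      refine ih _ hcard (E ⧸ V) rfl inferInstance ?_ (cyc_quot p E V hc)
      intro l hl hlp S hSle hSl
      refine sylow_quot (QuotientGroup.mk' V) l hl (pg p E) (hS l hl hlp) S ?_ hSl
      rw [pg_map p hp _ (QuotientGroup.mk'_surjective V)]
      exact hSle
    by_cases hbot : pg p E = ⊥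
    · exact rf_bot p E hc hbot
    by_cases hU : ∃ U : Subgroup E, U.Normal ∧ U ≤ pg p E ∧ IsPGroup p U ∧ U ≠ ⊥
    · obtain ⟨U, hUn, -, hUp, hU0⟩ := hU
      exact rf_stepA p E U hUp (hquot U hU0)
    · push Not at hU
      obtain ⟨A, C, hAn, hAH, hA0, hAc, hAp, hsup, hinf⟩ := exists_compl p hp E (pg p E)
        (fun U h1 h2 h3 => hU U h1 h2 h3) hS (by
          intro hco
          apply hbot
          rw [eq_bot_iff]
          conv_lhs => unfold pg
          rw [Subgroup.closure_le]
          rintro g ⟨k, hk⟩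
          have hg : g ∈ pg p E := mem_pg p E hk
          have h1 : (⟨g, hg⟩ : pg p E) ^ Nat.card (pg p E) = 1 := pow_card_eq_one'
          have h2 : g ^ Nat.card (pg p E) = 1 := congrArg Subtype.val h1
          exact mem_of_coprime (F := ⊥) (Nat.Coprime.pow_right k hco)
            (Subgroup.mem_bot.2 h2) (Subgroup.mem_bot.2 hk))
      exact rf_stepB p E A C hAc hAp hAH hsup hinf (hquot A hA0)

end Pool.Agent.AB3
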