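import Pool.Agent.Lib.MP_5de024_nt.S.FinX.Map
import Pool.Agent.Lib.MP_5de024_nt.S.Asm
import Pool.Agent.Lib.MP_5de024_nt.S.Kum

/-!
# Split abelian kernels of order prime to `p`
-/

set_option autoImplicit false
set_option linter.unusedSectionVars false

namespace Pool.Agent.AB3

open Pool.Agent.AB Polynomial

theorem rf_split (p : ℕ) [Fact p.Prime] (G : Type) [Group G] (H : Subgroup G) (h : RF p G H)
    (V : Type) [CommGroup V] [Finite V] (hV : (Nat.card V).Coprime p) (φ : G →* MulAut V)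
    (hcl : Subgroup.closure {x : V | ∃ (v : V) (g : G), g ∈ H ∧ x = φ g v * v⁻¹} = ⊤) :
    RF p (V ⋊[φ] G) (H.comap SemidirectProduct.rightHom) := by
  obtain ⟨K, _, _, _, _, Φ, hK, hΦ, hG⟩ := h
  obtain ⟨n, hn⟩ : ∃ n : ℕ, n = Nat.card V := ⟨_, rfl⟩
  have hn0 : 0 < n := hn ▸ Nat.card_pos
  obtain ⟨M, _, _, _, _, ρ, hM, hρ, hGc, hkd⟩ := exists_kdata p K hK n n (hn ▸ hV) hn0
  have hp : 1 < p := (Fact.out : p.Prime).one_lt
  have hle : Nat.card V ≤ p ^ n := hn ▸ (Nat.lt_pow_self hp).le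
  obtain ⟨v, hv⟩ : ∃ v : Fin (p ^ n) → V, Function.Surjective v := by
    have : Fintype V := Fintype.ofFinite V
    have h1 : Fintype.card V ≤ Fintype.card (Fin (p ^ n)) := by
      rw [Fintype.card_fin, ← Nat.card_eq_fintype_card]
      exact hle
    obtain ⟨f⟩ := Function.Embedding.nonempty_of_card_le h1
    exact ⟨Function.invFun f, Function.invFun_surjective f.injective⟩
  have hGH : ∀ g : G, g ∈ H ↔ ∃ σ ∈ Gc p M, Φ (ρ σ) = g := by
    intro g
    rw [← hG, ← hGc, Subgroup.map_map, Subgroup.mem_map]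
    rfl
  have hVn : ∀ a : V, a ^ n = 1 := fun a => hn ▸ pow_card_eq_one'
  have hk := kum_main p M hM n (p ^ n) (hn ▸ hV) hkd V hVn (φ.comp (Φ.comp ρ)) v (by
    rw [eq_top_iff, ← hcl, Subgroup.closure_le]
    rintro x ⟨w, g, hg, rfl⟩
    obtain ⟨σ, hσ, rfl⟩ := (hGH g).1 hg
    obtain ⟨j, rfl⟩ := hv w
    apply Subgroup.subset_closure
    refine ⟨j, 1, σ, hσ, ?_⟩
    rw [mul_one, map_one, MulAut.one_apply]
    rfl)
  let f : V ⋊[φ.comp (Φ.comp ρ)] Gl p M →* V ⋊[φ] G :=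
    SemidirectProduct.map (MonoidHom.id V) (Φ.comp ρ) (fun g => rfl)
  have hf : ∀ a, f a = ⟨a.1, Φ (ρ a.2)⟩ := fun a => rfl
  have hfs : Function.Surjective f := by
    intro a
    obtain ⟨g, hg⟩ := hΦ a.2
    obtain ⟨σ, rfl⟩ := hρ g
    refine ⟨⟨a.1, σ⟩, ?_⟩
    rw [hf]
    exact SemidirectProduct.ext rfl hg
  have h2 := rf_map p f hfs hk
  have h3 : ((Gc p M).comap SemidirectProduct.rightHom).map f =
      H.comap (SemidirectProduct.rightHom : V ⋊[φ] G →* G) := by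
    ext a
    rw [Subgroup.mem_map, Subgroup.mem_comap, SemidirectProduct.rightHom_eq_right, hGH]
    constructor
    · rintro ⟨b, hb, rfl⟩
      exact ⟨b.2, hb, rfl⟩
    · rintro ⟨σ, hσ, h4⟩
      exact ⟨⟨a.1, σ⟩, hσ, SemidirectProduct.ext rfl h4⟩
  rwa [h3] at h2

end Pool.Agent.AB3
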