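import Pool.Agent.Lib.MP_5de024_nt.S.FinX.Pgen
import Pool.Agent.Lib.MP_5de024_nt.S.FinX.Split
import Pool.Agent.Lib.MP_5de024_nt.S.Pk

/-!
# The two steps for `RF p E (pg p E)`
-/

set_option autoImplicit false
set_option linter.unusedSectionVars false

namespace Pool.Agent.AB3

open Pool.Agent.AB Polynomial

theorem rf_stepA (p : ℕ) [Fact p.Prime] (E : Type) [Group E] [Finite E] (U : Subgroup E)
    [U.Normal] (hU : IsPGroup p U) (h : RF p (E ⧸ U) (pg p (E ⧸ U))) : RF p E (pg p E) := by
  refine rf_pker p E (pg p E) U hU ?_ ?_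
  · intro u hu
    obtain ⟨n, hn⟩ := hU ⟨u, hu⟩
    exact mem_pg p E (n := n) (congrArg Subtype.val hn)
  · rw [pg_map p Fact.out (QuotientGroup.mk' U) (QuotientGroup.mk'_surjective U)]
    exact h

theorem rf_semi (p : ℕ) [Fact p.Prime] (V C : Type) [CommGroup V] [Finite V] [Group C]
    [Finite C] (hV : (Nat.card V).Coprime p) (φ : C →* MulAut V)
    (hle : ∀ v : V, (SemidirectProduct.inl v : V ⋊[φ] C) ∈ pg p (V ⋊[φ] C))
    (h : RF p C (pg p C)) : RF p (V ⋊[φ] C) (pg p (V ⋊[φ] C)) := by
  have hp : p.Prime := Fact.out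
  have : Finite (V ⋊[φ] C) := Finite.of_equiv _ SemidirectProduct.equivProd.symm
  have h1 := rf_split p C (pg p C) h V hV φ (closure_of_le p V C hV φ hle)
  have h2 : (pg p C).comap SemidirectProduct.rightHom = pg p (V ⋊[φ] C) := by
    apply le_antisymm
    · intro a ha
      rw [Subgroup.mem_comap, ← pg_map p hp (SemidirectProduct.rightHom : V ⋊[φ] C →* C)
        SemidirectProduct.rightHom_surjective] at ha
      obtain ⟨b, hb, hab⟩ := ha
      have h3 : a = SemidirectProduct.inl (a.left * b.left⁻¹) * b := by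
        apply SemidirectProduct.ext
        · rw [SemidirectProduct.mul_left, SemidirectProduct.left_inl, SemidirectProduct.right_inl,
            map_one, MulAut.one_apply, inv_mul_cancel_right]
        · rw [SemidirectProduct.mul_right, SemidirectProduct.right_inl, one_mul]
          exact hab.symm
      rw [h3]
      exact Subgroup.mul_mem _ (hle _) hb
    · rw [← Subgroup.map_le_iff_le_comap]
      exact pg_map_le p _
  rwa [h2] at h1

theorem rf_stepB (p : ℕ) [Fact p.Prime] (E : Type) [Group E] [Finite E] (V C : Subgroup E)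
    [V.Normal] (hVc : ∀ a ∈ V, ∀ b ∈ V, a * b = b * a) (hcop : (Nat.card V).Coprime p)
    (hle : V ≤ pg p E) (hsup : V ⊔ C = ⊤) (hinf : V ⊓ C = ⊥)
    (h : RF p (E ⧸ V) (pg p (E ⧸ V))) : RF p E (pg p E) := by
  have hp : p.Prime := Fact.out
  let i1 : CommGroup V := { (inferInstance : Group V) with
    mul_comm := fun a b => Subtype.ext (hVc a a.2 b b.2) }
  let e0 : C →* E ⧸ V := (QuotientGroup.mk' V).comp C.subtype
  have he0 : Function.Bijective e0 := by
    constructor
    · rw [injective_iff_map_eq_one]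
      intro c hc
      have h1 : (c : E) ∈ V := (QuotientGroup.eq_one_iff _).1 hc
      have h2 : (c : E) ∈ V ⊓ C := ⟨h1, c.2⟩
      rw [hinf, Subgroup.mem_bot] at h2
      exact Subtype.ext h2
    · intro x
      obtain ⟨g, rfl⟩ := QuotientGroup.mk'_surjective V x
      have hg : g ∈ V ⊔ C := hsup ▸ Subgroup.mem_top g
      rw [Subgroup.mem_sup_of_normal_left] at hg
      obtain ⟨v, hv, c, hc, rfl⟩ := hg
      refine ⟨⟨c, hc⟩, ?_⟩
      have h1 : QuotientGroup.mk' V v = 1 := (QuotientGroup.eq_one_iff _).2 hv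
      rw [map_mul, h1, one_mul]
      rfl
  let e : C ≃* E ⧸ V := MulEquiv.ofBijective e0 he0
  have hC : RF p C (pg p C) := rf_congr p e.symm h (pg_map p hp _ e.symm.surjective)
  let φ : C →* MulAut V := (MulAut.conjNormal : E →* MulAut V).comp C.subtype
  let f : V ⋊[φ] C →* E := SemidirectProduct.lift V.subtype C.subtype (by
    intro c
    ext v
    rfl)
  have hf : ∀ a : V ⋊[φ] C, f a = (a.left : E) * (a.right : E) := fun a => rfl
  have hfs : Function.Surjective f := by
    intro g
    have hg : g ∈ V ⊔ C := hsup ▸ Subgroup.mem_top g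
    rw [Subgroup.mem_sup_of_normal_left] at hg
    obtain ⟨v, hv, c, hc, rfl⟩ := hg
    exact ⟨⟨⟨v, hv⟩, ⟨c, hc⟩⟩, rfl⟩
  have hfi : Function.Injective f := by
    rw [injective_iff_map_eq_one]
    intro a ha
    rw [hf] at ha
    have h1 : (a.left : E) = (a.right : E)⁻¹ := eq_inv_of_mul_eq_one_left ha
    have h2 : (a.left : E) ∈ V ⊓ C := ⟨a.left.2, h1 ▸ C.inv_mem a.right.2⟩
    rw [hinf, Subgroup.mem_bot] at h2
    rw [h2, one_mul] at ha
    exact SemidirectProduct.ext (Subtype.ext h2) (Subtype.ext ha)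
  have : Finite (V ⋊[φ] C) := Finite.of_equiv _ SemidirectProduct.equivProd.symm
  have hmap := pg_map p hp f hfs
  have h3 := rf_semi p V C hcop φ (by
    intro v
    have h4 : (v : E) ∈ (pg p (V ⋊[φ] C)).map f := by
      rw [hmap]
      exact hle v.2
    obtain ⟨b, hb, hbv⟩ := h4
    have h5 : b = SemidirectProduct.inl v := by
      apply hfi
      rw [hbv, hf]
      exact (mul_one _).symm
    rw [← h5]
    exact hb) hC
  have h4 := rf_map p f hfs h3
  rwa [hmap] at h4

end Pool.Agent.AB3
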