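import Pool.Agent.Lib.MP_5de024_nt.S.FinX.Ref

/-!
# Supplemented abelian normal subgroups of order prime to `p`
-/

set_option autoImplicit false
set_option linter.unusedSectionVars false

namespace Pool.Agent.AB3

open Pool.Agent.AB

/-- if `a` and `h` commute modulo the normal subgroup `W` and `(a h) ^ q = 1`, `h ^ q = 1` then
`a ^ q ∈ W` -/
theorem pow_mem_of_comm {E : Type} [Group E] (W : Subgroup E) [W.Normal] (a h : E)
    (hc : h * a * h⁻¹ * a⁻¹ ∈ W) (q : ℕ) (h1 : (a * h) ^ q = 1) (h2 : h ^ q = 1) : a ^ q ∈ W := by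
  have e : ∀ x : E, QuotientGroup.mk' W x = 1 ↔ x ∈ W := fun x => QuotientGroup.eq_one_iff x
  rw [← e] at hc ⊢
  rw [map_mul, map_mul, map_mul, map_inv, map_inv] at hc
  have h3 : Commute (QuotientGroup.mk' W a) (QuotientGroup.mk' W h) :=
    (mul_inv_eq_iff_eq_mul.1 (mul_inv_eq_one.1 hc)).symm
  have h4 := congrArg (QuotientGroup.mk' W) h1
  rw [map_pow, map_mul, map_one, h3.mul_pow, ← map_pow (QuotientGroup.mk' W) h, h2, map_one,
    mul_one] at h4
  rw [map_pow]
  exact h4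

theorem rf_supp (p : ℕ) [Fact p.Prime] (E : Type) [Group E] [Finite E] (A C : Subgroup E)
    [A.Normal] (hAc : ∀ a ∈ A, ∀ b ∈ A, a * b = b * a) (hcop : (Nat.card A).Coprime p)
    (hle : A ≤ pg p E) (hsup : A ⊔ C = ⊤) (h : RF p C (pg p C)) : RF p E (pg p E) := by
  classical
  have hp : p.Prime := Fact.out
  obtain ⟨D, hD⟩ : ∃ D : Subgroup E, D = (pg p C).map C.subtype := ⟨_, rfl⟩
  have hDC : D ≤ C := by
    rw [hD]
    rintro _ ⟨x, -, rfl⟩
    exact x.2
  have hDc : ∀ c ∈ C, ∀ d ∈ D, c * d * c⁻¹ ∈ D := by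
    intro c hc d hd
    rw [hD] at hd ⊢
    obtain ⟨x, hx, rfl⟩ := hd
    exact ⟨⟨c, hc⟩ * x * ⟨c, hc⟩⁻¹, (pg_normal p C).conj_mem x hx ⟨c, hc⟩, rfl⟩
  -- the subgroup `[A, D]`
  obtain ⟨W, hW⟩ : ∃ W : Subgroup E, W = Subgroup.closure
    {x : E | ∃ a ∈ A, ∃ d ∈ D, x = d * a * d⁻¹ * a⁻¹} := ⟨_, rfl⟩
  have hAn : A.Normal := inferInstance
  have hWA : W ≤ A := by
    rw [hW, Subgroup.closure_le]
    rintro x ⟨a, ha, d, hd, rfl⟩
    exact A.mul_mem (hAn.conj_mem a ha d) (A.inv_mem ha)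
  have hEC : ∀ x : E, ∃ a ∈ A, ∃ c ∈ C, x = a * c := by
    intro x
    have hx : x ∈ A ⊔ C := hsup ▸ Subgroup.mem_top x
    rw [Subgroup.mem_sup_of_normal_left] at hx
    obtain ⟨a, ha, c, hc, h1⟩ := hx
    exact ⟨a, ha, c, hc, h1.symm⟩
  have hWn : W.Normal := by
    constructor
    intro w hw g
    obtain ⟨a, ha, c, hc, rfl⟩ := hEC g
    have h1 : c * w * c⁻¹ ∈ W := by
      rw [hW] at hw ⊢
      induction hw using Subgroup.closure_induction with
      | mem y hy =>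
        obtain ⟨b, hb, d, hd, rfl⟩ := hy
        refine Subgroup.subset_closure ⟨c * b * c⁻¹, hAn.conj_mem b hb c, c * d * c⁻¹,
          hDc c hc d hd, ?_⟩
        group
      | one => rw [mul_one, mul_inv_cancel]; exact Subgroup.one_mem _
      | mul x y _ _ ihx ihy =>
        have e : c * (x * y) * c⁻¹ = (c * x * c⁻¹) * (c * y * c⁻¹) := by group
        rw [e]
        exact Subgroup.mul_mem _ ihx ihy
      | inv x _ ihx =>
        have e : c * x⁻¹ * c⁻¹ = (c * x * c⁻¹)⁻¹ := by group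
        rw [e]
        exact Subgroup.inv_mem _ ihx
    have h2 : a * c * w * (a * c)⁻¹ = a * (c * w * c⁻¹) * a⁻¹ := by group
    rw [h2, hAc a ha _ (hWA h1), mul_inv_cancel_right]
    exact h1
  have hmem : ∀ a ∈ A, ∀ d ∈ D, d * a * d⁻¹ * a⁻¹ ∈ W := fun a ha d hd => by
    rw [hW]
    exact Subgroup.subset_closure ⟨a, ha, d, hd, rfl⟩
  have hpowA : ∀ a ∈ A, ∀ n : ℕ, a ^ p ^ n ∈ W → a ∈ W := by
    intro a ha n hn
    refine mem_of_coprime (Nat.Coprime.pow_left n hcop.symm) hn ?_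
    have h1 : (⟨a, ha⟩ : A) ^ Nat.card A = 1 := pow_card_eq_one'
    have h2 : a ^ Nat.card A = 1 := congrArg Subtype.val h1
    rw [h2]
    exact W.one_mem
  -- `p`-elements of `E`
  have hpel : ∀ x : E, (∃ n : ℕ, x ^ p ^ n = 1) → x ∈ W ⊔ C := by
    rintro x ⟨n, hn⟩
    obtain ⟨a, ha, c, hc, rfl⟩ := hEC x
    have hcA : c ^ p ^ n ∈ A := by
      have e : ∀ x : E, QuotientGroup.mk' A x = 1 ↔ x ∈ A := fun x => QuotientGroup.eq_one_iff x
      have h1 := congrArg (QuotientGroup.mk' A) hn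
      rw [map_pow, map_mul, (e a).2 ha, one_mul, ← map_pow, map_one] at h1
      exact (e _).1 h1
    -- the `p`-part of `c`
    obtain ⟨k, m, hm, hk⟩ := Nat.exists_eq_pow_mul_and_not_dvd (orderOf_pos c).ne' p hp.ne_one
    have hcop2 : (p ^ (n + k)).Coprime m :=
      Nat.Coprime.pow_left _ ((Nat.Prime.coprime_iff_not_dvd hp).2 hm)
    obtain ⟨c1, c2, hc1, hc2, hcc⟩ : ∃ c1 c2 : E, c1 ∈ A ∧ (c2 ∈ C ∧ ∃ j, c2 ^ p ^ j = 1) ∧
        c = c1 * c2 := by
      refine ⟨(c ^ p ^ (n + k)) ^ (Nat.gcdA (p ^ (n + k)) m), (c ^ m) ^ (Nat.gcdB (p ^ (n + k)) m),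
        A.zpow_mem ?_ _, ⟨C.zpow_mem (C.pow_mem hc _) _, k, ?_⟩, ?_⟩
      · rw [pow_add, pow_mul]
        exact A.pow_mem hcA _
      · rw [← zpow_natCast, ← zpow_mul, mul_comm, zpow_mul, zpow_natCast, ← pow_mul,
          mul_comm m, ← hk, pow_orderOf_eq_one, one_zpow]
      · rw [← zpow_natCast, ← zpow_natCast, ← zpow_mul, ← zpow_mul, ← zpow_add,
          ← Nat.gcd_eq_gcd_ab, Nat.coprime_iff_gcd_eq_one.1 hcop2]
        norm_num
    obtain ⟨hc2C, j, hj⟩ := hc2
    have hc2D : c2 ∈ D := by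
      rw [hD]
      exact ⟨⟨c2, hc2C⟩, mem_pg p C (n := j) (Subtype.ext hj), rfl⟩
    have hx : a * c = (a * c1) * c2 := by rw [hcc, mul_assoc]
    have hb : a * c1 ∈ A := A.mul_mem ha hc1
    have h1 : (a * c1 * c2) ^ p ^ (n + j) = 1 := by
      rw [← hx, pow_add, pow_mul, hn, one_pow]
    have h2 : c2 ^ p ^ (n + j) = 1 := by
      rw [pow_add, mul_comm, pow_mul, hj, one_pow]
    have h3 := hpowA _ hb (n + j)
      (pow_mem_of_comm W (a * c1) c2 (hmem _ hb _ hc2D) _ h1 h2)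
    rw [hx]
    exact Subgroup.mul_mem_sup h3 hc2C
  have hAWC : A ≤ W ⊔ C := by
    refine hle.trans ?_
    conv_lhs => unfold pg
    rw [Subgroup.closure_le]
    exact hpel
  have hWC : W ⊔ C = ⊤ := by
    rw [eq_top_iff, ← hsup]
    exact sup_le hAWC le_sup_right
  -- the semidirect product
  let i1 : CommGroup W := { (inferInstance : Group W) with
    mul_comm := fun a b => Subtype.ext (hAc a (hWA a.2) b (hWA b.2)) }
  let φ : C →* MulAut W := (MulAut.conjNormal : E →* MulAut W).comp C.subtype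
  let f : W ⋊[φ] C →* E := SemidirectProduct.lift W.subtype C.subtype (by
    intro c
    ext v
    rfl)
  have hf : ∀ a : W ⋊[φ] C, f a = (a.left : E) * (a.right : E) := fun a => rfl
  have hfs : Function.Surjective f := by
    intro g
    have hg : g ∈ W ⊔ C := hWC ▸ Subgroup.mem_top g
    rw [Subgroup.mem_sup_of_normal_left] at hg
    obtain ⟨v, hv, c, hc, rfl⟩ := hg
    exact ⟨⟨⟨v, hv⟩, ⟨c, hc⟩⟩, rfl⟩
  have hWcop : (Nat.card W).Coprime p :=
    Nat.Coprime.coprime_dvd_left (Subgroup.card_dvd_of_le hWA) hcop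
  have : Finite (W ⋊[φ] C) := Finite.of_equiv _ SemidirectProduct.equivProd.symm
  -- `W = [W, D]`
  obtain ⟨W1, hW1⟩ : ∃ W1 : Subgroup E, W1 = Subgroup.closure
    {x : E | ∃ a ∈ W, ∃ d ∈ D, x = d * a * d⁻¹ * a⁻¹} := ⟨_, rfl⟩
  have hW1W : W1 ≤ W := by
    rw [hW1, Subgroup.closure_le]
    rintro x ⟨a, ha, d, hd, rfl⟩
    exact W.mul_mem (hWn.conj_mem a ha d) (W.inv_mem ha)
  have hDD : ∀ d ∈ D, d ∈ C := fun d hd => hDC hd
  have hW1n : W1.Normal := by
    constructor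
    intro w hw g
    obtain ⟨a, ha, c, hc, rfl⟩ := hEC g
    have h1 : c * w * c⁻¹ ∈ W1 := by
      rw [hW1] at hw ⊢
      induction hw using Subgroup.closure_induction with
      | mem y hy =>
        obtain ⟨b, hb, d, hd, rfl⟩ := hy
        refine Subgroup.subset_closure ⟨c * b * c⁻¹, hWn.conj_mem b hb c, c * d * c⁻¹,
          hDc c hc d hd, ?_⟩
        group
      | one => rw [mul_one, mul_inv_cancel]; exact Subgroup.one_mem _
      | mul x y _ _ ihx ihy =>
        have e : c * (x * y) * c⁻¹ = (c * x * c⁻¹) * (c * y * c⁻¹) := by group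
        rw [e]
        exact Subgroup.mul_mem _ ihx ihy
      | inv x _ ihx =>
        have e : c * x⁻¹ * c⁻¹ = (c * x * c⁻¹)⁻¹ := by group
        rw [e]
        exact Subgroup.inv_mem _ ihx
    have h2 : a * c * w * (a * c)⁻¹ = a * (c * w * c⁻¹) * a⁻¹ := by group
    rw [h2, hAc a ha _ (hWA (hW1W h1)), mul_inv_cancel_right]
    exact h1
  have hcomm : ∀ d ∈ D, ∀ a ∈ A, d * a * d⁻¹ * a⁻¹ ∈ W1 := by
    have hbase : ∀ x : C, x ∈ pg p C → ∀ a ∈ A, (x : E) * a * (x : E)⁻¹ * a⁻¹ ∈ W1 := by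
      intro x hx
      have hx' : x ∈ Subgroup.closure {g : C | ∃ n : ℕ, g ^ (p ^ n) = 1} := hx
      clear hx
      induction hx' using Subgroup.closure_induction with
      | mem y hy =>
        obtain ⟨n, hn⟩ := hy
        intro a ha
        have hyD : (y : E) ∈ D := by
          rw [hD]
          exact ⟨y, mem_pg p C hn, rfl⟩
        have hyn : (y : E) ^ p ^ n = 1 := congrArg Subtype.val hn
        obtain ⟨w, hw⟩ : ∃ w : E, w = (y : E) * a * (y : E)⁻¹ * a⁻¹ := ⟨_, rfl⟩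
        have hwW : w ∈ W := hw ▸ hmem a ha _ hyD
        rw [← hw]
        have hww : (y : E) * w * (y : E)⁻¹ * w⁻¹ ∈ W1 := by
          rw [hW1]
          exact Subgroup.subset_closure ⟨w, hwW, _, hyD, rfl⟩
        have e : ∀ x : E, QuotientGroup.mk' W1 x = 1 ↔ x ∈ W1 :=
          fun x => QuotientGroup.eq_one_iff x
        have h1 : ∀ k : ℕ, QuotientGroup.mk' W1 ((y : E) ^ k * a * ((y : E) ^ k)⁻¹) =
            QuotientGroup.mk' W1 (w ^ k * a) := by
          intro k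
          induction k with
          | zero => rw [pow_zero, pow_zero, inv_one, mul_one]
          | succ k ih =>
            have h2 : (y : E) ^ (k + 1) * a * ((y : E) ^ (k + 1))⁻¹ =
                (y : E) * ((y : E) ^ k * a * ((y : E) ^ k)⁻¹) * (y : E)⁻¹ := by
              rw [pow_succ']
              group
            have h3 : QuotientGroup.mk' W1 ((y : E) * w * (y : E)⁻¹) =
                QuotientGroup.mk' W1 w := by
              rw [← mul_inv_eq_one, ← map_inv, ← map_mul, e]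
              exact hww
            have h4 : (y : E) * (w ^ k * a) * (y : E)⁻¹ =
                ((y : E) * w * (y : E)⁻¹) ^ k * ((y : E) * a * (y : E)⁻¹) := by
              rw [conj_pow]
              group
            have h5 : (y : E) * a * (y : E)⁻¹ = w * a := by rw [hw]; group
            rw [h2, map_mul, map_mul, ih, ← map_mul, ← map_mul, h4, map_mul, map_pow, h3, h5,
              ← map_pow, ← map_mul, pow_succ, mul_assoc]
        have h2 := h1 (p ^ n)
        rw [hyn, one_mul, inv_one, mul_one, map_mul] at h2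
        have h3 : w ^ p ^ n ∈ W1 := by
          rw [← e]
          exact (mul_eq_right.1 h2.symm)
        refine mem_of_coprime (Nat.Coprime.pow_left n hcop.symm) h3 ?_
        have h4 : (⟨w, hWA hwW⟩ : A) ^ Nat.card A = 1 := pow_card_eq_one'
        have h5 : w ^ Nat.card A = 1 := congrArg Subtype.val h4
        rw [h5]
        exact W1.one_mem
      | one =>
        intro a _
        have h1 : ((1 : C) : E) * a * ((1 : C) : E)⁻¹ * a⁻¹ = 1 := by
          rw [Subgroup.coe_one]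
          group
        rw [h1]
        exact W1.one_mem
      | mul x y _ _ ihx ihy =>
        intro a ha
        have h1 : ((x * y : C) : E) * a * ((x * y : C) : E)⁻¹ * a⁻¹ =
            ((x : E) * ((y : E) * a * (y : E)⁻¹) * (x : E)⁻¹ * ((y : E) * a * (y : E)⁻¹)⁻¹) *
            ((y : E) * a * (y : E)⁻¹ * a⁻¹) := by
          rw [Subgroup.coe_mul]
          group
        rw [h1]
        exact W1.mul_mem (ihx _ (hAn.conj_mem a ha y)) (ihy a ha)
      | inv x _ ihx =>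
        intro a ha
        have h2 := ihx _ (hAn.conj_mem a ha (x : E)⁻¹)
        have h1 : ((x⁻¹ : C) : E) * a * ((x⁻¹ : C) : E)⁻¹ * a⁻¹ =
            ((x : E) * ((x : E)⁻¹ * a * (x : E)⁻¹⁻¹) * (x : E)⁻¹ *
              ((x : E)⁻¹ * a * (x : E)⁻¹⁻¹)⁻¹)⁻¹ := by
          rw [Subgroup.coe_inv]
          group
        rw [h1]
        exact W1.inv_mem h2
    intro d hd a ha
    rw [hD] at hd
    obtain ⟨x, hx, rfl⟩ := hd
    exact hbase x hx a ha
  have hWW1 : W ≤ W1 := by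
    conv_lhs => rw [hW]
    rw [Subgroup.closure_le]
    rintro x ⟨a, ha, d, hd, rfl⟩
    exact hcomm d hd a ha
  have hle2 : ∀ v : W, (SemidirectProduct.inl v : W ⋊[φ] C) ∈ pg p (W ⋊[φ] C) := by
    have hinr : ∀ x ∈ pg p C, (SemidirectProduct.inr x : W ⋊[φ] C) ∈ pg p (W ⋊[φ] C) :=
      fun x hx => pg_map_le p (SemidirectProduct.inr : C →* W ⋊[φ] C) ⟨x, hx, rfl⟩
    have h1 : W1 ≤ ((pg p (W ⋊[φ] C)).comap SemidirectProduct.inl).map W.subtype := by
      rw [hW1, Subgroup.closure_le]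
      rintro x ⟨a, ha, d, hd, rfl⟩
      rw [hD] at hd
      obtain ⟨y, hy, rfl⟩ := hd
      refine ⟨φ y ⟨a, ha⟩ * ⟨a, ha⟩⁻¹, ?_, rfl⟩
      show SemidirectProduct.inl (φ y ⟨a, ha⟩ * ⟨a, ha⟩⁻¹) ∈ pg p (W ⋊[φ] C)
      have h2 : (SemidirectProduct.inl (φ y ⟨a, ha⟩ * ⟨a, ha⟩⁻¹) : W ⋊[φ] C) =
          SemidirectProduct.inr y * (SemidirectProduct.inl ⟨a, ha⟩ *
          (SemidirectProduct.inr y)⁻¹ * (SemidirectProduct.inl ⟨a, ha⟩)⁻¹) := by
        rw [map_mul, SemidirectProduct.inl_aut]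
        simp only [map_inv]
        group
      rw [h2]
      exact Subgroup.mul_mem _ (hinr y hy)
        ((pg_normal p (W ⋊[φ] C)).conj_mem _ (Subgroup.inv_mem _ (hinr y hy)) _)
    intro v
    obtain ⟨u, hu, huv⟩ := h1 (hWW1 v.2)
    have h2 : u = v := Subtype.ext huv
    rw [← h2]
    exact hu
  have h3 := rf_semi p W C hWcop φ hle2 h
  have h4 := rf_map p f hfs h3
  rwa [pg_map p hp f hfs] at h4

end Pool.Agent.AB3
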